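import Pool.Agent.Results.MP_036dc9_gt.ReflectionHull

/-!
# Equality in the reflection hull inequality: statements

`cRatio i K`, `kappa n` are the definitions of the landed file `ReflectionHull`.
THEOREM: for `1 ≤ i < d` a convex body `K` of `ℝ^d` has `c_i(K) = 1 + 2 κ_{d-1} / κ_d` iff `K` is a
ball. Notation: `d = m + 1`.
-/

set_option autoImplicit false
open MeasureTheory Set Module Filter Topology Metric TopologicalSpace
open scoped ENNReal RealInnerProductSpace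
open Pool.Agent.Helper481.RH
open Pool.Agent.Results.MP_036dc9_gt.ReflectionHull

namespace H829RQ

/-- the space `ℝ^(m+1)` -/
abbrev Ed (m : ℕ) := EuclideanSpace ℝ (Fin (m + 1))

/-- convex bodies -/
def Body {m : ℕ} (K : Set (Ed m)) : Prop := IsCompact K ∧ Convex ℝ K ∧ (interior K).Nonempty

/-- `(length of t) * (volume of the projection of K along t)`, the support function of the
projection body; `seg K t = K + [0, t]` -/
noncomputable def pr {m : ℕ} (K : Set (Ed m)) (t : Ed m) : ℝ :=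
  (volume (seg K t)).toReal - (volume K).toReal

/-- support function of the difference body: `(length of t) * (width of K in direction t)` -/
noncomputable def hd {m : ℕ} (K : Set (Ed m)) (t : Ed m) : ℝ :=
  sSup ((fun p : Ed m × Ed m => ⟪t, p.1 - p.2⟫) '' (K ×ˢ K))

/-- polar of the difference body -/
def Pd {m : ℕ} (K : Set (Ed m)) : Set (Ed m) := {x | ∀ p ∈ K, ∀ q ∈ K, ⟪x, p - q⟫ ≤ 1}

/-- Steiner symmetral in the direction `b 0` -/
def SS {m : ℕ} (b : OrthonormalBasis (Fin (m + 1)) ℝ (Ed m)) (K : Set (Ed m)) : Set (Ed m) :=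
  (coord b).symm '' St (coord b '' K)

/-- averaged volume of `K + [0, t]` -/
noncomputable def FB {m : ℕ} (K : Set (Ed m)) : ℝ≥0∞ :=
  ∫⁻ t in closedBall (0 : Ed m) 1, volume (seg K t)

/-- reflection in the hyperplane orthogonal to the unit vector `v` -/
noncomputable def Rf {m : ℕ} (v x : Ed m) : Ed m := x - (2 * ⟪v, x⟫) • v

/-- (WID) reflection hulls in dimension `1 ≤ i` see the width -/
def S_WID : Prop := ∀ (m i : ℕ), 1 ≤ i → i ≤ m → ∀ K : Set (Ed m), IsCompact K → Convex ℝ K →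
  ∀ x t v : Ed m, x ∈ K → x + t ∈ K → ‖v‖ = 1 → 0 ≤ ⟪v, t⟫ →
  ∃ L : AffineSubspace ℝ (Ed m), ∃ _ : Nonempty L, finrank ℝ L.direction = i ∧
    ((L : Set (Ed m)) ∩ K).Nonempty ∧
    volume (seg K (⟪v, t⟫ • v)) ≤ volume (convexHull ℝ (K ∪ EuclideanGeometry.reflection L '' K))

/-- (HDF) facts on `hd` -/
def S_HDF : Prop := ∀ (m : ℕ) (K : Set (Ed m)), Body K → Continuous (hd K) ∧
  (∀ t, t ≠ 0 → 0 < hd K t) ∧ (∀ (s : ℝ) (t : Ed m), 0 ≤ s → hd K (s • t) = s * hd K t) ∧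
  (∀ t, ∃ p ∈ K, ∃ q ∈ K, ⟪t, p - q⟫ = hd K t) ∧
  (∀ t, ∀ p ∈ K, ∀ q ∈ K, ⟪t, p - q⟫ ≤ hd K t) ∧ (∀ t, t ∈ Pd K ↔ hd K t ≤ 1)

/-- (PRF) facts on `pr` -/
def S_PRF : Prop := ∀ (m : ℕ) (K : Set (Ed m)), IsCompact K → Convex ℝ K →
  (∀ t, volume (seg K t) ≠ ∞) ∧ Measurable (fun t : Ed m => volume (seg K t)) ∧
  (∀ t, 0 ≤ pr K t) ∧ (∀ (s : ℝ) (t : Ed m), 0 ≤ s → pr K (s • t) = s * pr K t) ∧
  ∃ C : ℝ, ∀ t : Ed m, ‖t‖ ≤ 1 → pr K t ≤ C

/-- (HYP) -/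
def S_HYP : Prop := ∀ (m i : ℕ), 1 ≤ i → i ≤ m → ∀ K : Set (Ed m), Body K →
  cRatio i K ≤ 1 + 2 * kappa m / kappa (m + 1) →
  ∀ t, pr K t * hd K t ≤ 2 * (kappa m / kappa (m + 1)) * (volume K).toReal * ‖t‖ ^ 2

/-- (STA) the Steiner symmetral -/
def S_STA : Prop := ∀ (m : ℕ) (b : OrthonormalBasis (Fin (m + 1)) ℝ (Ed m)) (K : Set (Ed m)),
  IsCompact K → Convex ℝ K → K.Nonempty → IsCompact (SS b K) ∧ Convex ℝ (SS b K) ∧
  (SS b K).Nonempty ∧ volume (SS b K) = volume K ∧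
  (∀ R, K ⊆ closedBall 0 R → SS b K ⊆ closedBall 0 R)

/-- (STB) diameter and symmetries of the Steiner symmetral -/
def S_STB : Prop := ∀ (m : ℕ) (b : OrthonormalBasis (Fin (m + 1)) ℝ (Ed m)) (K : Set (Ed m)),
  (∀ r : ℝ, (∀ p ∈ K, ∀ q ∈ K, ‖p - q‖ ≤ r) → ∀ p ∈ SS b K, ∀ q ∈ SS b K, ‖p - q‖ ≤ r) ∧
  (∀ x ∈ SS b K, Rf (b 0) x ∈ SS b K) ∧
  (∀ v, ‖v‖ = 1 → ⟪b 0, v⟫ = 0 → (∀ x ∈ K, Rf v x ∈ K) → ∀ x ∈ SS b K, Rf v x ∈ SS b K)

/-- (STP) projections of the Steiner symmetral -/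
def S_STP : Prop := ∀ (m : ℕ) (b : OrthonormalBasis (Fin (m + 1)) ℝ (Ed m)) (K : Set (Ed m)),
  IsCompact K → Convex ℝ K → ∀ t, 2 * volume (seg (SS b K) t) ≤
    volume (seg K t) + volume (seg K (Rf (b 0) t))

/-- (STF) -/
def S_STF : Prop := ∀ (m : ℕ) (b : OrthonormalBasis (Fin (m + 1)) ℝ (Ed m)) (K : Set (Ed m)),
  IsCompact K → Convex ℝ K → FB (SS b K) ≤ FB K

/-- (STD) the volume of the polar difference body increases -/
def S_STD : Prop := ∀ (m : ℕ) (b : OrthonormalBasis (Fin (m + 1)) ℝ (Ed m)) (K : Set (Ed m)),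
  volume (Pd K) ≤ volume (Pd (SS b K))

/-- the class in which the second moment is minimised -/
def C2 (m : ℕ) (R : ℝ) (V A B : ℝ≥0∞) : Set (NonemptyCompacts (Ed m)) :=
  {L | (L : Set (Ed m)) ⊆ closedBall 0 R ∧ Convex ℝ (L : Set (Ed m)) ∧
    V ≤ volume (L : Set (Ed m)) ∧ FB (L : Set (Ed m)) ≤ A ∧ B ≤ volume (Pd (L : Set (Ed m)))}

/-- (MIN) -/
def S_MIN : Prop := ∀ (m : ℕ) (R : ℝ) (V A B : ℝ≥0∞), V ≠ 0 → (C2 m R V A B).Nonempty →
  ∃ L ∈ C2 m R V A B, ∀ M ∈ C2 m R V A B, mom (L : Set (Ed m)) ≤ mom (M : Set (Ed m))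

/-- (SYM) -/
def S_SYM : Prop := ∀ (m : ℕ) (R : ℝ) (V A B : ℝ≥0∞) (L : NonemptyCompacts (Ed m)), V ≠ 0 →
  L ∈ C2 m R V A B → (∀ M ∈ C2 m R V A B, mom (L : Set (Ed m)) ≤ mom (M : Set (Ed m))) →
  ∀ v : Ed m, ‖v‖ = 1 → ∀ x ∈ L, Rf v x ∈ L

/-- (FIN) comparison with a ball -/
def S_FIN : Prop := ∀ (m : ℕ) (K : Set (Ed m)), Body K → ∃ ρ : ℝ, 0 < ρ ∧
  volume K ≤ volume (closedBall (0 : Ed m) ρ) ∧ FB (closedBall (0 : Ed m) ρ) ≤ FB K ∧
  volume (Pd K) ≤ volume (Pd (closedBall (0 : Ed m) ρ))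

/-- (BAL) balls -/
def S_BAL : Prop := ∀ (m : ℕ) (ρ : ℝ), 0 < ρ →
  (∀ (c t : Ed m), volume (seg (closedBall c ρ) t) =
    ENNReal.ofReal (ρ ^ (m + 1) * kappa (m + 1) + ‖t‖ * (ρ ^ m * kappa m))) ∧
  volume (Pd (closedBall (0 : Ed m) ρ)) = ENNReal.ofReal (kappa (m + 1) / (2 * ρ) ^ (m + 1))

/-- (POL) polar coordinates -/
def S_POL : Prop := ∀ (m : ℕ) (K : Set (Ed m)), Body K →
  IntegrableOn (fun t : Ed m => ‖t‖ * (‖t‖ / hd K t) ^ (m + 1)) (closedBall 0 1) ∧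
  ∫ t in closedBall (0 : Ed m) 1, ‖t‖ * (‖t‖ / hd K t) ^ (m + 1) =
    ((m : ℝ) + 1) / (m + 2) * (volume (Pd K)).toReal ∧
  ∫ t in closedBall (0 : Ed m) 1, ‖t‖ = ((m : ℝ) + 1) / (m + 2) * kappa (m + 1)

/-- (WCO) constant width -/
def S_WCO : Prop := ∀ (m : ℕ) (K : Set (Ed m)), 1 ≤ m → Body K →
  (∀ t, pr K t * hd K t ≤ 2 * (kappa m / kappa (m + 1)) * (volume K).toReal * ‖t‖ ^ 2) →
  ∀ r : ℝ, 0 < r → volume K = volume (closedBall (0 : Ed m) r) → ∀ t, hd K t = 2 * r * ‖t‖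

/-- (RIG) rigidity -/
def S_RIG : Prop := ∀ (m : ℕ) (b : OrthonormalBasis (Fin (m + 1)) ℝ (Ed m)) (K : Set (Ed m))
  (c : Ed m) (r : ℝ), IsCompact K → Convex ℝ K → 0 < r → (∀ p ∈ K, ∀ q ∈ K, ‖p - q‖ ≤ 2 * r) →
  SS b K = closedBall c r → ∃ c' : Ed m, K = closedBall c' r

/-- (ISO) equality in the isodiametric inequality -/
def S_ISO : Prop := ∀ (m : ℕ) (K : Set (Ed m)) (r : ℝ), Body K → 0 < r →
  volume K = volume (closedBall (0 : Ed m) r) → (∀ p ∈ K, ∀ q ∈ K, ‖p - q‖ ≤ 2 * r) →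
  ∃ c : Ed m, K = closedBall c r

/-- (BLL) the value for balls -/
def S_BLL : Prop := ∀ (m i : ℕ) (c : Ed m) (r : ℝ), i ≤ m → 0 < r →
  cRatio i (closedBall c r) ≤ 1 + 2 * kappa m / kappa (m + 1)

/-- (MAIN) -/
def S_MAIN : Prop := ∀ (d i : ℕ), 1 ≤ i → i < d → ∀ K : Set (EuclideanSpace ℝ (Fin d)),
  Convex ℝ K → IsCompact K → (interior K).Nonempty →
  (cRatio i K = 1 + 2 * kappa (d - 1) / kappa d ↔
    ∃ (c : EuclideanSpace ℝ (Fin d)) (r : ℝ), 0 < r ∧ K = closedBall c r)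

theorem t_MAIN (h1 : S_HDF) (h2 : S_HYP) (h3 : S_WCO) (h4 : S_ISO) (h5 : S_BLL) : S_MAIN := by
  intro d i hi1 hid K hconv hcomp hint
  obtain ⟨m, rfl⟩ : ∃ m, d = m + 1 := ⟨d - 1, by omega⟩
  rw [Nat.add_sub_cancel]
  constructor
  · intro h
    have hB : Body K := ⟨hcomp, hconv, hint⟩
    have hprod := h2 m i hi1 (by omega) K hB h.le
    -- the radius of the ball of the same volume
    have hv0 : volume K ≠ 0 := (isOpen_interior.measure_pos volume hint).trans_le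
      (measure_mono interior_subset) |>.ne'
    have hvt : volume K ≠ ∞ := hcomp.measure_lt_top.ne
    have hk0 : kap (m + 1) ≠ 0 := by
      have : 0 < kap (m + 1) := measure_closedBall_pos _ _ one_pos
      exact this.ne'
    have hkt : kap (m + 1) ≠ ∞ := (isCompact_closedBall _ _).measure_lt_top.ne
    set q : ℝ := (volume K).toReal / (kap (m + 1)).toReal with hq
    have hq0 : 0 < q := div_pos (ENNReal.toReal_pos hv0 hvt) (ENNReal.toReal_pos hk0 hkt)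
    set r : ℝ := q ^ ((1 : ℝ) / ((m : ℝ) + 1)) with hr
    have hr0 : 0 < r := Real.rpow_pos_of_pos hq0 _
    have hrq : r ^ (m + 1) = q := by
      rw [hr, ← Real.rpow_natCast, ← Real.rpow_mul hq0.le]
      push_cast
      rw [one_div, inv_mul_cancel₀ (by positivity), Real.rpow_one]
    have hvol : volume K = volume (closedBall (0 : Ed m) r) := by
      rw [volume_closedBall_eq (m + 1) hr0.le, hrq, hq,
        ENNReal.ofReal_div_of_pos (ENNReal.toReal_pos hk0 hkt), ENNReal.ofReal_toReal hvt,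
        ENNReal.ofReal_toReal hkt, ENNReal.div_mul_cancel hk0 hkt]
    have hw := h3 m K (by omega) hB hprod r hr0 hvol
    obtain ⟨-, -, -, -, hle, -⟩ := h1 m K hB
    have hdiam : ∀ p ∈ K, ∀ q ∈ K, ‖p - q‖ ≤ 2 * r := by
      intro p hp q hq
      have h7 := hle (p - q) p hp q hq
      rw [hw, real_inner_self_eq_norm_sq] at h7
      rcases eq_or_lt_of_le (norm_nonneg (p - q)) with h8 | h8
      · rw [← h8]
        positivity
      · nlinarith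
    obtain ⟨c, hc⟩ := h4 m K r hB hr0 hvol hdiam
    exact ⟨c, r, hr0, hc⟩
  · rintro ⟨c, r, hr, rfl⟩
    apply le_antisymm (h5 m i c r (by omega) hr)
    have := (Pool.Agent.Results.MP_036dc9_gt.ReflectionHull.result (m + 1) i hid
      (closedBall c r) hconv hcomp hint).2.2
    rwa [Nat.add_sub_cancel] at this

end H829RQ
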