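import Pool.Agent.H829R2.RQ.Defs

set_option autoImplicit false
open MeasureTheory Set Module Filter Topology Metric TopologicalSpace
open scoped ENNReal RealInnerProductSpace
open Pool.Agent.Helper481.RH
open Pool.Agent.Results.MP_036dc9_gt.ReflectionHull

namespace H829RQ

theorem BAL_kap (n : ℕ) : kap n = ENNReal.ofReal (kappa n) := by
  have h : kappa n = (kap n).toReal := rfl
  rw [h, ENNReal.ofReal_toReal]
  exact (isCompact_closedBall _ _).measure_lt_top.ne

theorem BAL_kappa_nonneg (n : ℕ) : 0 ≤ kappa n := ENNReal.toReal_nonneg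

theorem BAL_ball (n : ℕ) {r : ℝ} (hr : 0 ≤ r) :
    volume (closedBall (0 : EuclideanSpace ℝ (Fin n)) r) = ENNReal.ofReal (r ^ n * kappa n) := by
  rw [volume_closedBall_eq n hr, BAL_kap, ← ENNReal.ofReal_mul (by positivity)]

theorem BAL_seg0 {m : ℕ} {ρ : ℝ} (hρ : 0 < ρ) (t : Ed m) :
    volume (seg (closedBall (0 : Ed m) ρ) t) =
      ENNReal.ofReal (ρ ^ (m + 1) * kappa (m + 1) + ‖t‖ * (ρ ^ m * kappa m)) := by
  by_cases h0 : t = 0
  · subst h0
    have h1 : seg (closedBall (0 : Ed m) ρ) 0 = closedBall (0 : Ed m) ρ := by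
      ext z
      constructor
      · rintro ⟨x, hx, s, _, _, rfl⟩
        rw [smul_zero, add_zero]
        exact hx
      · intro hz
        exact ⟨z, hz, 0, le_rfl, zero_le_one, by simp⟩
    rw [h1, BAL_ball (m + 1) hρ.le, norm_zero, zero_mul, add_zero]
  · have hpos : 0 < ‖t‖ := norm_pos_iff.2 h0
    obtain ⟨b, hb⟩ := exists_basis (m := m) (v := (‖t‖)⁻¹ • t) (by
      rw [norm_smul, norm_inv, norm_norm, inv_mul_cancel₀ hpos.ne'])
    have ht : t = ‖t‖ • b 0 := by
      rw [hb, smul_smul, mul_inv_cancel₀ hpos.ne', one_smul]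
    have h2 : coord b t = (‖t‖, 0) := by
      conv_lhs => rw [ht]
      rw [map_smul, coord_basis]
      simp
    have hcc : Convex ℝ (coord b '' closedBall 0 ρ) :=
      (convex_closedBall _ _).linear_image (coord b).toLinearEquiv.toLinearMap
    rw [← volume_coord_image b, coord_image_seg, h2, volume_seg
      ((isCompact_closedBall _ _).image (coord b).continuous) hcc hpos.le,
      volume_coord_image, volume_proj_ball b hρ.le, BAL_ball (m + 1) hρ.le, BAL_kap m,
      ← ENNReal.ofReal_mul (by positivity), ← ENNReal.ofReal_mul hpos.le,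
      ← ENNReal.ofReal_add]
    · have := BAL_kappa_nonneg (m + 1)
      positivity
    · have := BAL_kappa_nonneg m
      positivity

theorem BAL_shift {m : ℕ} (ρ : ℝ) (c t : Ed m) :
    seg (closedBall c ρ) t = (fun z => c + z) '' seg (closedBall (0 : Ed m) ρ) t := by
  ext z
  constructor
  · rintro ⟨x, hx, s, h0, h1, rfl⟩
    refine ⟨(x - c) + s • t, ⟨x - c, ?_, s, h0, h1, rfl⟩, ?_⟩
    · rw [mem_closedBall_zero_iff, ← dist_eq_norm]
      exact hx
    · simp only
      abel
  · rintro ⟨_, ⟨x, hx, s, h0, h1, rfl⟩, rfl⟩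
    refine ⟨c + x, ?_, s, h0, h1, ?_⟩
    · rw [mem_closedBall, dist_eq_norm, add_sub_cancel_left]
      rwa [mem_closedBall_zero_iff] at hx
    · simp only
      abel

theorem BAL_polar {m : ℕ} {ρ : ℝ} (hρ : 0 < ρ) :
    Pd (closedBall (0 : Ed m) ρ) = closedBall (0 : Ed m) (1 / (2 * ρ)) := by
  ext x
  rw [mem_closedBall_zero_iff]
  constructor
  · intro h
    rcases (norm_nonneg x).eq_or_lt with h0 | h0
    · rw [← h0]
      positivity
    · have hp : (ρ / ‖x‖) • x ∈ closedBall (0 : Ed m) ρ := by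
        rw [mem_closedBall_zero_iff, norm_smul, Real.norm_eq_abs, abs_of_pos (by positivity),
          div_mul_cancel₀ _ h0.ne']
      have hq : -((ρ / ‖x‖) • x) ∈ closedBall (0 : Ed m) ρ := by
        rw [mem_closedBall_zero_iff, norm_neg]
        exact mem_closedBall_zero_iff.1 hp
      have h1 : ⟪x, (ρ / ‖x‖) • x - -((ρ / ‖x‖) • x)⟫ ≤ 1 := h _ hp _ hq
      rw [sub_neg_eq_add, inner_add_right, real_inner_smul_right, real_inner_self_eq_norm_sq] at h1
      have h2 : ρ / ‖x‖ * ‖x‖ ^ 2 = ρ * ‖x‖ := by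
        field_simp
      rw [h2] at h1
      rw [le_div_iff₀ (by positivity)]
      linarith
  · intro h p hp q hq
    rw [mem_closedBall_zero_iff] at hp hq
    rw [le_div_iff₀ (by positivity)] at h
    calc ⟪x, p - q⟫ ≤ ‖x‖ * ‖p - q‖ := real_inner_le_norm _ _
      _ ≤ ‖x‖ * (2 * ρ) := by
        refine mul_le_mul_of_nonneg_left ?_ (norm_nonneg _)
        refine (norm_sub_le _ _).trans ?_
        linarith
      _ ≤ 1 := h

theorem t_BAL : S_BAL := by
  intro m ρ hρ
  refine ⟨fun c t => ?_, ?_⟩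
  · rw [BAL_shift, image_add_left, measure_preimage_add, BAL_seg0 hρ]
  · rw [BAL_polar hρ, BAL_ball (m + 1) (by positivity)]
    congr 1
    rw [div_pow, one_pow]
    ring

end H829RQ
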