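import Pool.Agent.H829R2.RQ.Defs

set_option autoImplicit false
open MeasureTheory Set Module Filter Topology Metric TopologicalSpace
open scoped ENNReal RealInnerProductSpace
open Pool.Agent.Helper481.RH
open Pool.Agent.Results.MP_036dc9_gt.ReflectionHull

namespace H829RQ

theorem t_BLL (h : S_BAL) : S_BLL := by
  intro m i c r him hr
  have hk1 := kappa_pos (m + 1)
  have hk0 := kappa_pos m
  have hpos : 0 ≤ 1 + 2 * kappa m / kappa (m + 1) := by positivity
  have hvB : (volume (closedBall c r)).toReal = r ^ (m + 1) * kappa (m + 1) := by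
    rw [Measure.addHaar_closedBall_center, volume_closedBall_eq (m + 1) hr.le,
      ENNReal.toReal_mul, ENNReal.toReal_ofReal (by positivity)]
    rfl
  refine Real.sSup_le ?_ hpos
  rintro _ ⟨L, hLne, -, ⟨p, hpL, hpB⟩, rfl⟩
  set c' : Ed m := sigma L c with hc'
  have hfix : sigma L p = p := (EuclideanGeometry.reflection_eq_self_iff p).2 hpL
  have hiso : ∀ x y : Ed m, dist (sigma L x) (sigma L y) = dist x y := fun x y =>
    (EuclideanGeometry.reflection L).dist_map x y
  have hcp : dist c' p ≤ r := by
    have h1 : dist (sigma L c) (sigma L p) = dist c p := hiso c p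
    rw [hfix] at h1
    rw [hc', h1, dist_comm]
    exact mem_closedBall.1 hpB
  have ht : ‖c' - c‖ ≤ 2 * r := by
    rw [← dist_eq_norm]
    calc dist c' c ≤ dist c' p + dist p c := dist_triangle _ _ _
      _ ≤ r + r := add_le_add hcp (mem_closedBall.1 hpB)
      _ = 2 * r := by ring
  have hsub : reflHull L (closedBall c r) ⊆ seg (closedBall c r) (c' - c) := by
    refine convexHull_min ?_ (seg_convex (convex_closedBall c r) _)
    rintro z (hz | ⟨w, hw, rfl⟩)
    · exact subset_seg _ _ hz
    · refine ⟨sigma L w - (c' - c), ?_, 1, zero_le_one, le_rfl, by rw [one_smul]; abel⟩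
      rw [mem_closedBall, dist_eq_norm]
      have h1 : dist (sigma L w) c' ≤ r := by
        rw [hc', hiso]
        exact mem_closedBall.1 hw
      rw [dist_eq_norm] at h1
      have h2 : sigma L w - (c' - c) - c = sigma L w - c' := by abel
      rw [h2]
      exact h1
  have hvol : (volume (reflHull L (closedBall c r))).toReal ≤
      r ^ (m + 1) * kappa (m + 1) + 2 * r * (r ^ m * kappa m) := by
    have h1 := (h m r hr).1 c (c' - c)
    have h2 : volume (reflHull L (closedBall c r)) ≤
        ENNReal.ofReal (r ^ (m + 1) * kappa (m + 1) + ‖c' - c‖ * (r ^ m * kappa m)) :=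
      h1 ▸ measure_mono hsub
    have h3 := ENNReal.toReal_mono ENNReal.ofReal_ne_top h2
    rw [ENNReal.toReal_ofReal (by positivity)] at h3
    refine h3.trans ?_
    gcongr
  rw [hvB, div_le_iff₀ (by positivity)]
  refine hvol.trans (le_of_eq ?_)
  field_simp
  ring

end H829RQ
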