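import Pool.Agent.H829R2.RQ.Defs

set_option autoImplicit false
open MeasureTheory Set Module Filter Topology Metric TopologicalSpace
open scoped ENNReal RealInnerProductSpace
open Pool.Agent.Helper481.RH
open Pool.Agent.Results.MP_036dc9_gt.ReflectionHull

namespace H829RQ

theorem t_FIN (h1 : S_MIN) (h2 : S_SYM) : S_FIN := by
  intro m K hB
  obtain ⟨hcomp, hconv, hint⟩ := hB
  have hne : K.Nonempty := hint.mono interior_subset
  have hv0 : volume K ≠ 0 := ((isOpen_interior.measure_pos volume hint).trans_le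
      (measure_mono interior_subset)).ne'
  obtain ⟨R, hR⟩ := hcomp.isBounded.subset_closedBall 0
  have hKC : (C2 m R (volume K) (FB K) (volume (Pd K))).Nonempty :=
    ⟨⟨⟨K, hcomp⟩, hne⟩, hR, hconv, le_rfl, le_rfl, le_rfl⟩
  obtain ⟨L, hL, hmin⟩ := h1 m R (volume K) (FB K) (volume (Pd K)) hv0 hKC
  have hsym := h2 m R (volume K) (FB K) (volume (Pd K)) L hv0 hL hmin
  obtain ⟨-, hLc, hLV, hLA, hLB⟩ := hL
  obtain ⟨ρ, hρ, hLρ⟩ := eq_ball (L := (L : Set (Ed m))) L.isCompact hLc L.nonempty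
    (fun v hv x hx => hsym v hv x hx)
  refine ⟨ρ, ?_, by rw [← hLρ]; exact hLV, by rw [← hLρ]; exact hLA, by rw [← hLρ]; exact hLB⟩
  rcases eq_or_lt_of_le hρ with h | h
  · exfalso
    apply hv0
    rw [hLρ, ← h, closedBall_zero] at hLV
    have : volume ({0} : Set (Ed m)) = 0 := by
      rw [measure_singleton]
    rw [this] at hLV
    exact le_antisymm hLV zero_le'
  · exact h

end H829RQ
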