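import Pool.Agent.H829R2.RQ.Defs

set_option autoImplicit false
open MeasureTheory Set Module Filter Topology Metric TopologicalSpace
open scoped ENNReal RealInnerProductSpace
open Pool.Agent.Helper481.RH
open Pool.Agent.Results.MP_036dc9_gt.ReflectionHull

namespace H829RQ

theorem HDF_bdd {m : ℕ} {K : Set (Ed m)} (hK : IsCompact K) (t : Ed m) :
    BddAbove ((fun p : Ed m × Ed m => ⟪t, p.1 - p.2⟫) '' (K ×ˢ K)) := by
  refine ((hK.prod hK).image ?_).bddAbove
  fun_prop

theorem HDF_le {m : ℕ} {K : Set (Ed m)} (hK : IsCompact K) (t p q : Ed m) (hp : p ∈ K)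
    (hq : q ∈ K) : ⟪t, p - q⟫ ≤ hd K t :=
  le_csSup (HDF_bdd hK t) ⟨(p, q), ⟨hp, hq⟩, rfl⟩

theorem HDF_max {m : ℕ} {K : Set (Ed m)} (hK : IsCompact K) (hne : K.Nonempty) (t : Ed m) :
    ∃ p ∈ K, ∃ q ∈ K, ⟪t, p - q⟫ = hd K t := by
  have hc : ContinuousOn (fun p : Ed m × Ed m => ⟪t, p.1 - p.2⟫) (K ×ˢ K) := by fun_prop
  obtain ⟨⟨p, q⟩, ⟨hp, hq⟩, h⟩ := (hK.prod hK).exists_isMaxOn (hne.prod hne) hc
  refine ⟨p, hp, q, hq, ?_⟩
  apply le_antisymm (HDF_le hK t p q hp hq)
  refine csSup_le ((hne.prod hne).image _) ?_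
  rintro x ⟨y, hy, rfl⟩
  exact h hy

theorem HDF_leq {m : ℕ} {K : Set (Ed m)} (hK : IsCompact K) (hne : K.Nonempty) (t : Ed m) (c : ℝ)
    (h : ∀ p ∈ K, ∀ q ∈ K, ⟪t, p - q⟫ ≤ c) : hd K t ≤ c := by
  obtain ⟨p, hp, q, hq, h1⟩ := HDF_max hK hne t
  rw [← h1]
  exact h p hp q hq

theorem t_HDF : S_HDF := by
  intro m K hB
  obtain ⟨hK, hconv, hint⟩ := hB
  have hne : K.Nonempty := hint.mono interior_subset
  refine ⟨?_, ?_, ?_, fun t => HDF_max hK hne t, fun t p hp q hq => HDF_le hK t p q hp hq, ?_⟩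
  · obtain ⟨R, hR⟩ := hK.isBounded.exists_norm_le
    have hR0 : 0 ≤ R := by
      obtain ⟨x, hx⟩ := hne
      exact (norm_nonneg x).trans (hR x hx)
    have key : ∀ s t : Ed m, hd K s ≤ hd K t + 2 * R * ‖s - t‖ := by
      intro s t
      refine HDF_leq hK hne s _ ?_
      intro p hp q hq
      have e : ⟪s, p - q⟫ = ⟪t, p - q⟫ + ⟪s - t, p - q⟫ := by
        rw [← inner_add_left]
        congr 1
        abel
      rw [e]
      have h1 := HDF_le hK t p q hp hq
      have h2 : ⟪s - t, p - q⟫ ≤ ‖s - t‖ * ‖p - q‖ := real_inner_le_norm _ _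
      have h3 : ‖p - q‖ ≤ 2 * R := by
        have := norm_sub_le p q
        have := hR p hp
        have := hR q hq
        linarith
      have h4 : ‖s - t‖ * ‖p - q‖ ≤ ‖s - t‖ * (2 * R) :=
        mul_le_mul_of_nonneg_left h3 (norm_nonneg _)
      linarith
    have hL : LipschitzWith (Real.toNNReal (2 * R)) (hd K) := by
      apply LipschitzWith.of_le_add_mul
      intro s t
      rw [Real.coe_toNNReal _ (by positivity), dist_eq_norm]
      exact key s t
    exact hL.continuous
  · intro t ht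
    obtain ⟨z, hz⟩ := hint
    obtain ⟨r, hr, hball⟩ := Metric.isOpen_iff.1 isOpen_interior z hz
    have htn : 0 < ‖t‖ := norm_pos_iff.2 ht
    set a : Ed m := (r / 2 / ‖t‖) • t with ha
    have han : ‖a‖ < r := by
      rw [ha, norm_smul, Real.norm_of_nonneg (by positivity)]
      field_simp
      linarith
    have hp : z + a ∈ K := interior_subset (hball (by
      rw [Metric.mem_ball, dist_eq_norm]
      simpa using han))
    have hq : z - a ∈ K := interior_subset (hball (by
      rw [Metric.mem_ball, dist_eq_norm]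
      have e : z - a - z = -a := by abel
      rw [e, norm_neg]
      exact han))
    refine lt_of_lt_of_le ?_ (HDF_le hK t _ _ hp hq)
    have e : z + a - (z - a) = (r / ‖t‖) • t := by
      rw [ha]
      have : z + (r / 2 / ‖t‖) • t - (z - (r / 2 / ‖t‖) • t) =
        (r / 2 / ‖t‖ + r / 2 / ‖t‖) • t := by
        rw [add_smul]
        abel
      rw [this]
      congr 1
      ring
    rw [e, inner_smul_right, real_inner_self_eq_norm_sq]
    positivity
  · intro s t hs
    apply le_antisymm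
    · refine HDF_leq hK hne _ _ ?_
      intro p hp q hq
      rw [real_inner_smul_left]
      exact mul_le_mul_of_nonneg_left (HDF_le hK t p q hp hq) hs
    · obtain ⟨p, hp, q, hq, h1⟩ := HDF_max hK hne t
      rw [← h1, ← real_inner_smul_left]
      exact HDF_le hK _ p q hp hq
  · intro t
    constructor
    · intro ht
      exact HDF_leq hK hne t 1 ht
    · intro ht p hp q hq
      exact (HDF_le hK t p q hp hq).trans ht

end H829RQ
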