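import Pool.Agent.H829R2.RQ.Defs

/-!
# Width times projection
-/

set_option autoImplicit false
open MeasureTheory Set Module Filter Topology Metric TopologicalSpace
open scoped ENNReal RealInnerProductSpace
open Pool.Agent.Helper481.RH
open Pool.Agent.Results.MP_036dc9_gt.ReflectionHull

namespace H829RQ

theorem t_HYP (h1 : S_WID) (h2 : S_HDF) (h3 : S_PRF) : S_HYP := by
  intro m i hi him K hB hc t
  obtain ⟨hK, hKc, hKi⟩ := hB
  obtain ⟨-, hpos, hhom, hex, -, -⟩ := h2 m K ⟨hK, hKc, hKi⟩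
  obtain ⟨hfin, -, hpr0, hprh, -⟩ := h3 m K hK hKc
  by_cases ht : t = 0
  · subst ht
    have h4 : hd K (0 : Ed m) = 0 := by
      have := hhom 0 (0 : Ed m) le_rfl
      rwa [zero_smul, zero_mul] at this
    rw [h4, mul_zero, norm_zero]
    simp
  have htn : 0 < ‖t‖ := norm_pos_iff.2 ht
  obtain ⟨v, hv⟩ : ∃ v : Ed m, v = ‖t‖⁻¹ • t := ⟨_, rfl⟩
  have hvn : ‖v‖ = 1 := by
    rw [hv, norm_smul, norm_inv, norm_norm, inv_mul_cancel₀ htn.ne']
  have hv0 : v ≠ 0 := by
    intro h
    rw [h, norm_zero] at hvn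
    exact zero_ne_one hvn
  have htv : t = ‖t‖ • v := by
    rw [hv, smul_smul, mul_inv_cancel₀ htn.ne', one_smul]
  obtain ⟨p, hp, q, hq, hpq⟩ := hex v
  have hw := hpos v hv0
  obtain ⟨L, hLne, hL1, hL2, hL3⟩ := h1 m i hi him K hK hKc q (p - q) v hq (by
    rw [add_sub_cancel]
    exact hp) hvn (by rw [hpq]; exact hw.le)
  rw [hpq] at hL3
  have hVpos : 0 < (volume K).toReal := by
    apply ENNReal.toReal_pos
    · exact ((isOpen_interior.measure_pos volume hKi).trans_le (measure_mono interior_subset)).ne'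
    · exact hK.measure_lt_top.ne
  have hWt : volume (convexHull ℝ (K ∪ EuclideanGeometry.reflection L '' K)) ≠ ∞ := by
    have hc' : IsCompact (EuclideanGeometry.reflection L '' K) :=
      hK.image (EuclideanGeometry.reflection L).continuous
    have hb : Bornology.IsBounded (convexHull ℝ (K ∪ EuclideanGeometry.reflection L '' K)) :=
      (isBounded_convexHull).2 (hK.union hc').isBounded
    exact hb.measure_lt_top.ne
  have hmem : (volume (reflHull L K)).toReal / (volume K).toReal ∈ ratios i K :=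
    ⟨L, hLne, hL1, hL2, rfl⟩
  have h5 : (volume (reflHull L K)).toReal / (volume K).toReal ≤
      1 + 2 * kappa m / kappa (m + 1) := (le_csSup (bddAbove_ratios i hK) hmem).trans hc
  rw [div_le_iff₀ hVpos] at h5
  have h6 : (volume (seg K (hd K v • v))).toReal ≤ (volume (reflHull L K)).toReal :=
    ENNReal.toReal_mono hWt hL3
  have h7 : pr K (hd K v • v) ≤ 2 * kappa m / kappa (m + 1) * (volume K).toReal := by
    unfold pr
    linarith
  rw [hprh (hd K v) v hw.le] at h7
  rw [htv, hprh ‖t‖ v htn.le, hhom ‖t‖ v htn.le, norm_smul, norm_norm, hvn, mul_one]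
  calc ‖t‖ * pr K v * (‖t‖ * hd K v) = ‖t‖ ^ 2 * (hd K v * pr K v) := by ring
    _ ≤ ‖t‖ ^ 2 * (2 * kappa m / kappa (m + 1) * (volume K).toReal) := by
        gcongr
    _ = 2 * (kappa m / kappa (m + 1)) * (volume K).toReal * ‖t‖ ^ 2 := by ring

end H829RQ
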