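import Pool.Agent.H829R2.RQ.Defs

set_option autoImplicit false
open MeasureTheory Set Module Filter Topology Metric TopologicalSpace
open scoped ENNReal RealInnerProductSpace
open Pool.Agent.Helper481.RH

namespace H829RQ

/-- the `j`-th unit vector -/
noncomputable def ISO_e {m : ℕ} (j : Fin (m + 1)) : Ed m := EuclideanSpace.single j (1 : ℝ)

/-- an orthonormal basis starting with the `j`-th unit vector -/
noncomputable def ISO_b {m : ℕ} (j : Fin (m + 1)) : OrthonormalBasis (Fin (m + 1)) ℝ (Ed m) :=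
  (EuclideanSpace.basisFun (Fin (m + 1)) ℝ).reindex (Equiv.swap 0 j)

theorem ISO_b0 {m : ℕ} (j : Fin (m + 1)) : ISO_b j 0 = (ISO_e j : Ed m) := by
  unfold ISO_b ISO_e
  rw [OrthonormalBasis.reindex_apply]
  simp

theorem ISO_norm {m : ℕ} (j : Fin (m + 1)) : ‖(ISO_e j : Ed m)‖ = 1 := by
  unfold ISO_e
  simp

theorem ISO_inner {m : ℕ} (j : Fin (m + 1)) (x : Ed m) : ⟪(ISO_e j : Ed m), x⟫ = x j := by
  unfold ISO_e
  rw [EuclideanSpace.inner_single_left]
  simp

theorem ISO_Rf {m : ℕ} (j i : Fin (m + 1)) (x : Ed m) :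
    Rf (ISO_e j) x i = if i = j then - x i else x i := by
  unfold Rf
  rw [ISO_inner]
  by_cases h : i = j
  · subst h
    simp [ISO_e]
    ring
  · simp [ISO_e, h]

/-- full symmetry -/
theorem ISO_neg {m : ℕ} {K : Set (Ed m)} (h : ∀ j : Fin (m + 1), ∀ x ∈ K, Rf (ISO_e j) x ∈ K) :
    ∀ x ∈ K, -x ∈ K := by
  have key : ∀ (s : Finset (Fin (m + 1))), ∀ x ∈ K, ∃ y ∈ K, (∀ i ∈ s, y i = - x i) ∧
      ∀ i, i ∉ s → y i = x i := by
    intro s
    induction s using Finset.induction_on with
    | empty => intro x hx; exact ⟨x, hx, by simp, by simp⟩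
    | insert j s hj ih =>
      intro x hx
      obtain ⟨y, hy, h1, h2⟩ := ih x hx
      refine ⟨Rf (ISO_e j) y, h j y hy, ?_, ?_⟩
      · intro i hi
        rw [ISO_Rf]
        rcases Finset.mem_insert.1 hi with rfl | hi'
        · rw [if_pos rfl, h2 i hj]
        · have hij : i ≠ j := by
            intro h5
            rw [h5] at hi'
            exact hj hi'
          rw [if_neg hij, h1 i hi']
      · intro i hi
        rw [Finset.mem_insert, not_or] at hi
        rw [ISO_Rf, if_neg hi.1, h2 i hi.2]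
  intro x hx
  obtain ⟨y, hy, h1, -⟩ := key Finset.univ x hx
  have : -x = y := by
    ext i
    rw [h1 i (Finset.mem_univ i)]
    rfl
  rw [this]
  exact hy

/-- a closed subset of full measure of a ball -/
theorem ISO_full {m : ℕ} {K : Set (Ed m)} {r : ℝ} (hr : 0 < r) (hK : IsCompact K)
    (hsub : K ⊆ closedBall 0 r) (hvol : volume K = volume (closedBall (0 : Ed m) r)) :
    K = closedBall 0 r := by
  apply Subset.antisymm hsub
  have h0 : volume (closedBall (0 : Ed m) r \ K) = 0 := by
    rw [measure_diff hsub hK.measurableSet.nullMeasurableSet hK.measure_lt_top.ne, hvol,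
      tsub_self]
  have h1 : ball (0 : Ed m) r \ K = ∅ := by
    by_contra hne
    have hne' : (ball (0 : Ed m) r \ K).Nonempty := nonempty_iff_ne_empty.2 hne
    have hopen : IsOpen (ball (0 : Ed m) r \ K) := isOpen_ball.sdiff hK.isClosed
    have h2 := hopen.measure_pos volume hne'
    have h3 : volume (ball (0 : Ed m) r \ K) ≤ volume (closedBall (0 : Ed m) r \ K) :=
      measure_mono (diff_subset_diff_left ball_subset_closedBall)
    rw [h0] at h3
    exact absurd (le_antisymm h3 zero_le) h2.ne'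
  have h2 : ball (0 : Ed m) r ⊆ K := diff_eq_empty.1 h1
  rw [← closure_ball (0 : Ed m) hr.ne']
  exact hK.isClosed.closure_subset_iff.2 h2

theorem t_ISO (h1 : S_STA) (h2 : S_STB) (h3 : S_RIG) : S_ISO := by
  intro m K r hB hr hvol hdiam
  have key : ∀ n : ℕ, n ≤ m + 1 → ∀ K : Set (Ed m), IsCompact K → Convex ℝ K → K.Nonempty →
      volume K = volume (closedBall (0 : Ed m) r) → (∀ p ∈ K, ∀ q ∈ K, ‖p - q‖ ≤ 2 * r) →
      (∀ j : Fin (m + 1), n ≤ j.1 → ∀ x ∈ K, Rf (ISO_e j) x ∈ K) →
      ∃ c : Ed m, K = closedBall c r := by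
    intro n
    induction n with
    | zero =>
      intro _ K hK _ _ hv hd hs
      have hneg := ISO_neg (fun j => hs j (Nat.zero_le _))
      have hsub : K ⊆ closedBall 0 r := by
        intro x hx
        rw [mem_closedBall_zero_iff]
        have h4 := hd x hx (-x) (hneg x hx)
        have h5 : x - -x = (2 : ℝ) • x := by rw [sub_neg_eq_add, two_smul]
        rw [h5, norm_smul] at h4
        norm_num at h4
        linarith
      exact ⟨0, ISO_full hr hK hsub hv⟩
    | succ n ih =>
      intro hn K hK hc hne hv hd hs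
      let j : Fin (m + 1) := ⟨n, by omega⟩
      obtain ⟨a1, a2, a3, a4, -⟩ := h1 m (ISO_b j) K hK hc hne
      obtain ⟨b1, b2, b3⟩ := h2 m (ISO_b j) K
      have hd' := b1 (2 * r) hd
      obtain ⟨c, hc'⟩ := ih (by omega) (SS (ISO_b j) K) a1 a2 a3 (a4.trans hv) hd' (by
        intro i hi x hx
        by_cases hij : i = j
        · rw [hij, ← ISO_b0]
          exact b2 x hx
        · have hni : n + 1 ≤ i.1 := by
            have : i.1 ≠ n := fun h => hij (Fin.ext h)
            omega
          refine b3 (ISO_e i) (ISO_norm i) ?_ (hs i hni) x hx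
          rw [ISO_b0, ISO_inner]
          have hji : j ≠ i := fun h => hij h.symm
          simp [ISO_e, hji])
      exact h3 m (ISO_b j) K c r hK hc hr hd hc'
  obtain ⟨hK, hconv, hint⟩ := hB
  exact key (m + 1) le_rfl K hK hconv (hint.mono interior_subset) hvol hdiam
    (fun j hj => absurd j.2 (by omega))

end H829RQ
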