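import Pool.Agent.H829R2.RQ.Defs

set_option autoImplicit false
open MeasureTheory Set Module Filter Topology Metric TopologicalSpace
open scoped ENNReal RealInnerProductSpace Pointwise
open Pool.Agent.Helper481.RH
open Pool.Agent.Results.MP_036dc9_gt.ReflectionHull

namespace H829RQ

/-- the polar difference body of a close body lies in a multiple of the polar difference body -/
lemma MIN_Pd_subset {m : ℕ} {K L : Set (Ed m)} {z : Ed m} {ρ δ : ℝ} (hρ : 0 < ρ) (hδ : 0 < δ)
    (hδρ : δ ≤ ρ / 2) (hz : closedBall z ρ ⊆ K) (h1 : ∀ x ∈ K, ∃ y ∈ L, dist x y ≤ δ) :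
    Pd L ⊆ (1 + 2 * δ / ρ) • Pd K := by
  intro x hx
  have key : ∀ p ∈ K, ∀ q ∈ K, ⟪x, p - q⟫ ≤ 1 + 2 * δ * ‖x‖ := by
    intro p hp q hq
    obtain ⟨p', hp', hpd⟩ := h1 p hp
    obtain ⟨q', hq', hqd⟩ := h1 q hq
    have h2 := hx p' hp' q' hq'
    have e : p - q = (p' - q') + ((p - p') - (q - q')) := by abel
    have h3 : ⟪x, (p - p') - (q - q')⟫ ≤ ‖x‖ * (δ + δ) := by
      refine (real_inner_le_norm _ _).trans ?_
      refine mul_le_mul_of_nonneg_left ?_ (norm_nonneg _)
      refine (norm_sub_le _ _).trans ?_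
      rw [← dist_eq_norm, ← dist_eq_norm]
      exact add_le_add hpd hqd
    rw [e, inner_add_right]
    linarith
  have hxn : ‖x‖ ≤ 1 / ρ := by
    by_cases hx0 : x = 0
    · rw [hx0, norm_zero]
      positivity
    · have hpos : 0 < ‖x‖ := norm_pos_iff.2 hx0
      set w : Ed m := (‖x‖)⁻¹ • x with hw
      have hwn : ‖w‖ = 1 := by
        rw [hw, norm_smul, norm_inv, norm_norm, inv_mul_cancel₀ hpos.ne']
      have hp : z + ρ • w ∈ K := by
        apply hz
        rw [mem_closedBall, dist_eq_norm, add_sub_cancel_left, norm_smul, hwn, mul_one,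
          Real.norm_eq_abs, abs_of_nonneg hρ.le]
      have hq : z - ρ • w ∈ K := by
        apply hz
        rw [mem_closedBall, dist_eq_norm, sub_sub_cancel_left, norm_neg, norm_smul, hwn, mul_one,
          Real.norm_eq_abs, abs_of_nonneg hρ.le]
      have h2 := key _ hp _ hq
      have e : (z + ρ • w) - (z - ρ • w) = (2 * ρ) • w := by
        rw [two_mul, add_smul]; abel
      have h3 : ⟪x, w⟫ = ‖x‖ := by
        rw [hw, real_inner_smul_right, real_inner_self_eq_norm_sq, pow_two, ← mul_assoc,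
          inv_mul_cancel₀ hpos.ne', one_mul]
      rw [e, real_inner_smul_right, h3] at h2
      rw [le_div_iff₀ hρ]
      nlinarith
  have hc : 0 < 1 + 2 * δ / ρ := by positivity
  rw [Set.mem_smul_set_iff_inv_smul_mem₀ hc.ne']
  intro p hp q hq
  rw [real_inner_smul_left, inv_mul_le_iff₀ hc, mul_one]
  refine (key p hp q hq).trans ?_
  have h4 : 2 * δ * ‖x‖ ≤ 2 * δ * (1 / ρ) := mul_le_mul_of_nonneg_left hxn (by positivity)
  have h5 : 2 * δ * (1 / ρ) = 2 * δ / ρ := by ring
  linarith

theorem t_MIN (h : S_PRF) : S_MIN := by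
  intro m R V A B hV hne
  have : ProperSpace (Ed m) := FiniteDimensional.proper_real (Ed m)
  set S : Set ℝ≥0∞ := (fun M : NonemptyCompacts (Ed m) => mom (M : Set (Ed m))) '' C2 m R V A B
    with hS
  have hSne : S.Nonempty := hne.image _
  obtain ⟨u, -, hu, huS⟩ := exists_seq_tendsto_sInf hSne (OrderBot.bddBelow S)
  choose L hL hLu using huS
  have hcpt : IsCompact {M : NonemptyCompacts (Ed m) | (M : Set (Ed m)) ⊆ closedBall (0 : Ed m) R} :=
    NonemptyCompacts.isCompact_subsets_of_isCompact (isCompact_closedBall 0 R)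
  obtain ⟨K, hK, φ, hφ, hlim⟩ := hcpt.tendsto_subseq (x := L) (fun n => (hL n).1)
  have hdist : Tendsto (fun n => dist (L (φ n)) K) atTop (𝓝 0) := by
    have := tendsto_iff_dist_tendsto_zero.1 hlim
    exact this
  have hfin : ∀ n, hausdorffEDist (L (φ n) : Set (Ed m)) K ≠ ⊤ := fun n =>
    hausdorffEDist_ne_top_of_nonempty_of_bounded (L (φ n)).nonempty K.nonempty
      (L (φ n)).isCompact.isBounded K.isCompact.isBounded
  -- approximations
  have happ : ∀ δ : ℝ, 0 < δ → ∀ᶠ n in atTop, (∀ x ∈ (K : Set (Ed m)),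
      ∃ y ∈ (L (φ n) : Set (Ed m)), dist x y ≤ δ) ∧
      (∀ y ∈ (L (φ n) : Set (Ed m)), ∃ x ∈ (K : Set (Ed m)), dist x y ≤ δ) := by
    intro δ hδ
    filter_upwards [hdist.eventually_lt_const hδ] with n hn
    rw [NonemptyCompacts.dist_eq] at hn
    constructor
    · intro x hx
      obtain ⟨y, hy, h⟩ := exists_dist_lt_of_hausdorffDist_lt' hx hn (hfin n)
      exact ⟨y, hy, by rw [dist_comm]; exact h.le⟩
    · intro y hy
      obtain ⟨x, hx, h⟩ := exists_dist_lt_of_hausdorffDist_lt hy hn (hfin n)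
      exact ⟨x, hx, by rw [dist_comm]; exact h.le⟩
  have hKcl : IsClosed (K : Set (Ed m)) := K.isCompact.isClosed
  -- convexity
  have hKconv : Convex ℝ (K : Set (Ed m)) := by
    intro x hx y hy a b ha hb hab
    rw [← hKcl.closure_eq, Metric.mem_closure_iff]
    intro ε hε
    obtain ⟨n, h1, h2⟩ := (happ (ε / 4) (by positivity)).exists
    obtain ⟨x', hx', hxx⟩ := h1 x hx
    obtain ⟨y', hy', hyy⟩ := h1 y hy
    obtain ⟨z, hz, hzz⟩ := h2 _ ((hL (φ n)).2.1 hx' hy' ha hb hab)
    refine ⟨z, hz, ?_⟩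
    have h3 : dist (a • x + b • y) (a • x' + b • y') ≤ ε / 4 + ε / 4 := by
      refine (dist_add_add_le _ _ _ _).trans ?_
      rw [dist_smul₀, dist_smul₀, Real.norm_eq_abs, Real.norm_eq_abs, abs_of_nonneg ha,
        abs_of_nonneg hb]
      have ha1 : a ≤ 1 := by linarith
      have hb1 : b ≤ 1 := by linarith
      have := dist_nonneg (x := x) (y := x')
      have := dist_nonneg (x := y) (y := y')
      nlinarith
    have h4 := dist_triangle (a • x + b • y) (a • x' + b • y') z
    rw [dist_comm (a • x' + b • y') z] at h4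
    linarith
  -- volume
  have hVK : V ≤ volume (K : Set (Ed m)) := by
    have ht := (tendsto_measure_cthickening_of_isCompact (μ := (volume : Measure (Ed m)))
      K.isCompact).mono_left (nhdsWithin_le_nhds (s := Ioi 0))
    refine ge_of_tendsto ht ?_
    filter_upwards [self_mem_nhdsWithin] with r hr
    obtain ⟨n, h1, h2⟩ := (happ r hr).exists
    refine (hL (φ n)).2.2.1.trans (measure_mono fun y hy => ?_)
    obtain ⟨x, hx, hxy⟩ := h2 y hy
    exact mem_cthickening_of_dist_le y x r _ hx (by rw [dist_comm]; exact hxy)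
  -- segments
  have hseg : ∀ t : Ed m, volume (seg (K : Set (Ed m)) t) ≤
      liminf (fun n => volume (seg (L (φ n) : Set (Ed m)) t)) atTop := by
    intro t
    have hev : ∀ z ∈ interior (seg (K : Set (Ed m)) t), ∀ᶠ n in atTop,
        z ∈ seg (L (φ n) : Set (Ed m)) t := by
      intro z hz
      obtain ⟨r, hr, hrs⟩ := Metric.mem_nhds_iff.1 (mem_interior_iff_mem_nhds.1 hz)
      filter_upwards [happ (r / 8) (by positivity)] with n hn
      obtain ⟨h1, h2⟩ := hn
      refine mem_of_close (seg_compact (L (φ n)).isCompact _) (seg_convex (hL (φ n)).2.1 _)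
        ((L (φ n)).nonempty.mono (subset_seg _ _)) (δ := r / 8) (δ' := r / 2) (by positivity)
        (by linarith) ?_ ((closedBall_subset_ball (by linarith)).trans hrs)
      rintro _ ⟨w, hw, s, hs0, hs1, rfl⟩
      obtain ⟨w', hw', hd⟩ := h1 w hw
      refine ⟨w' + s • t, ⟨w', hw', s, hs0, hs1, rfl⟩, ?_⟩
      rw [dist_add_right]
      exact hd
    have hF := lintegral_le_liminf (seg_convex hKconv t)
      (fun n => (seg_compact (L (φ n)).isCompact t).measurableSet) hev
      (f := fun _ => 1) measurable_const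
    simp only [setLIntegral_one] at hF
    exact hF
  have hKA : FB (K : Set (Ed m)) ≤ A := by
    calc FB (K : Set (Ed m)) ≤ ∫⁻ t in closedBall (0 : Ed m) 1,
          liminf (fun n => volume (seg (L (φ n) : Set (Ed m)) t)) atTop := lintegral_mono hseg
      _ ≤ liminf (fun n => ∫⁻ t in closedBall (0 : Ed m) 1,
            volume (seg (L (φ n) : Set (Ed m)) t)) atTop :=
          lintegral_liminf_le fun n => (h m _ (L (φ n)).isCompact (hL (φ n)).2.1).2.1
      _ ≤ A := by
          refine liminf_le_of_le (by isBoundedDefault) ?_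
          intro c hc
          obtain ⟨n, hn⟩ := hc.exists
          exact hn.trans (hL (φ n)).2.2.2.1
  -- polar difference body
  have hKB : B ≤ volume (Pd (K : Set (Ed m))) := by
    have hvol : volume (K : Set (Ed m)) ≠ 0 := fun h0 => hV (le_antisymm (hVK.trans h0.le) zero_le)
    obtain ⟨z, hz⟩ := interior_nonempty_of_volume hKconv hvol
    obtain ⟨r, hr, hrs⟩ := Metric.mem_nhds_iff.1 (mem_interior_iff_mem_nhds.1 hz)
    set ρ : ℝ := r / 2 with hρd
    have hρ : 0 < ρ := by positivity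
    have hzK : closedBall z ρ ⊆ (K : Set (Ed m)) :=
      (closedBall_subset_ball (by rw [hρd]; linarith)).trans hrs
    have hmain : ∀ δ : ℝ, 0 < δ → δ ≤ ρ / 2 →
        B ≤ ENNReal.ofReal ((1 + 2 * δ / ρ) ^ (m + 1)) * volume (Pd (K : Set (Ed m))) := by
      intro δ hδ hδρ
      obtain ⟨n, h1, h2⟩ := (happ δ hδ).exists
      have hsub := MIN_Pd_subset hρ hδ hδρ hzK h1
      refine (hL (φ n)).2.2.2.2.trans ((measure_mono hsub).trans (le_of_eq ?_))
      rw [Measure.addHaar_smul]
      have hc : 0 < 1 + 2 * δ / ρ := by positivity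
      rw [finrank_euclideanSpace, Fintype.card_fin, abs_of_nonneg (by positivity)]
    have ht : Tendsto (fun δ : ℝ => ENNReal.ofReal ((1 + 2 * δ / ρ) ^ (m + 1)) *
        volume (Pd (K : Set (Ed m)))) (𝓝[>] 0) (𝓝 (1 * volume (Pd (K : Set (Ed m))))) := by
      refine ENNReal.Tendsto.mul_const ?_ (Or.inl one_ne_zero)
      have hcont : Continuous fun δ : ℝ => ENNReal.ofReal ((1 + 2 * δ / ρ) ^ (m + 1)) :=
        ENNReal.continuous_ofReal.comp (by fun_prop)
      have h0 := hcont.tendsto 0
      simp only [mul_zero, zero_div, add_zero, one_pow, ENNReal.ofReal_one] at h0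
      exact h0.mono_left nhdsWithin_le_nhds
    rw [one_mul] at ht
    refine ge_of_tendsto ht ?_
    filter_upwards [Ioc_mem_nhdsGT (show (0 : ℝ) < ρ / 2 by positivity)] with δ hδ
    exact hmain δ hδ.1 hδ.2
  refine ⟨K, ⟨hK, hKconv, hVK, hKA, hKB⟩, fun M hM => ?_⟩
  have hev : ∀ z ∈ interior (K : Set (Ed m)), ∀ᶠ n in atTop, z ∈ (L (φ n) : Set (Ed m)) := by
    intro z hz
    obtain ⟨r, hr, hrs⟩ := Metric.mem_nhds_iff.1 (mem_interior_iff_mem_nhds.1 hz)
    filter_upwards [happ (r / 8) (by positivity)] with n hn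
    exact mem_of_close (L (φ n)).isCompact (hL (φ n)).2.1 (L (φ n)).nonempty (δ' := r / 2)
      (by positivity) (by linarith) hn.1 ((closedBall_subset_ball (by linarith)).trans hrs)
  have hF := lintegral_le_liminf hKconv
    (fun n => (L (φ n)).isCompact.measurableSet) hev
    (f := fun x => ENNReal.ofReal (‖x‖ ^ 2)) (by fun_prop)
  have hlimM : Tendsto (fun n => mom (L (φ n) : Set (Ed m))) atTop (𝓝 (sInf S)) := by
    have h1 : Tendsto (fun n => u (φ n)) atTop (𝓝 (sInf S)) := hu.comp hφ.tendsto_atTop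
    refine h1.congr fun n => ?_
    exact (hLu (φ n)).symm
  have h2 : mom (K : Set (Ed m)) ≤ sInf S := by
    refine hF.trans (le_of_eq ?_)
    exact hlimM.liminf_eq
  exact h2.trans (sInf_le ⟨M, hM, rfl⟩)

end H829RQ
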