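import Pool.Agent.H829R2.RQ.Defs

/-! Task POL: polar coordinates. -/

set_option autoImplicit false
open MeasureTheory Set Module Filter Topology Metric TopologicalSpace
open scoped ENNReal RealInnerProductSpace
open Pool.Agent.Helper481.RH
open Pool.Agent.Results.MP_036dc9_gt.ReflectionHull

namespace H829RQ

theorem POL_polar (m : ℕ) (f : Ed m → ℝ≥0∞) (hf : Measurable f) :
    ∫⁻ x, f x = ∫⁻ θ : sphere (0 : Ed m) 1,
      (∫⁻ r in Ioi (0:ℝ), ENNReal.ofReal (r ^ m) * f (r • (θ : Ed m)))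
      ∂((volume : Measure (Ed m)).toSphere) := by
  have hfr : finrank ℝ (Ed m) - 1 = m := by
    rw [finrank_euclideanSpace_fin]; rfl
  have h1 : ∫⁻ x, f x = ∫⁻ x : ({0}ᶜ : Set (Ed m)), f x ∂((volume : Measure (Ed m)).comap (↑)) := by
    rw [lintegral_subtype_comap (measurableSet_singleton (0 : Ed m)).compl,
      restrict_compl_singleton]
  have hmp := (volume : Measure (Ed m)).measurePreserving_homeomorphUnitSphereProd
  rw [hfr] at hmp
  have h2 := hmp.lintegral_comp_emb (Homeomorph.measurableEmbedding _)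
    (fun p => f ((p.2 : ℝ) • (p.1 : Ed m)))
  have h3 : ∀ x : ({0}ᶜ : Set (Ed m)), f (((homeomorphUnitSphereProd (Ed m) x).2 : ℝ) •
      ((homeomorphUnitSphereProd (Ed m) x).1 : Ed m)) = f x := by
    intro x
    have := (homeomorphUnitSphereProd (Ed m)).symm_apply_apply x
    have h4 : ((homeomorphUnitSphereProd (Ed m) x).2 : ℝ) •
        ((homeomorphUnitSphereProd (Ed m) x).1 : Ed m) = x := by
      conv_rhs => rw [← this]
      rfl
    simp only [h4]
  simp only [h3] at h2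
  have hm2 : Measurable (fun p : sphere (0 : Ed m) 1 × Ioi (0:ℝ) =>
      f ((p.2 : ℝ) • (p.1 : Ed m))) := by
    apply hf.comp
    exact (measurable_subtype_coe.comp measurable_snd).smul
      (measurable_subtype_coe.comp measurable_fst)
  rw [h1, h2, lintegral_prod _ hm2.aemeasurable]
  refine lintegral_congr fun θ => ?_
  unfold Measure.volumeIoiPow
  have hm3 : Measurable (fun r : Ioi (0:ℝ) => f ((r : ℝ) • (θ : Ed m))) :=
    hf.comp (measurable_subtype_coe.smul_const _)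
  rw [lintegral_withDensity_eq_lintegral_mul _ (by fun_prop) hm3]
  rw [← lintegral_subtype_comap measurableSet_Ioi]
  rfl

theorem POL_pow (m : ℕ) {c : ℝ} (hc : 0 ≤ c) :
    ∫⁻ r in Ioc (0:ℝ) c, ENNReal.ofReal (r ^ m) = ENNReal.ofReal (c ^ (m + 1) / (m + 1)) := by
  have h0 : 0 ≤ᵐ[volume.restrict (Ioc (0:ℝ) c)] fun r : ℝ => r ^ m :=
    (ae_restrict_iff' measurableSet_Ioc).2 (ae_of_all _ fun r hr => pow_nonneg hr.1.le _)
  rw [← ofReal_integral_eq_lintegral_ofReal
    ((intervalIntegrable_iff_integrableOn_Ioc_of_le hc).1 (intervalIntegral.intervalIntegrable_pow m)) h0,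
    ← intervalIntegral.integral_of_le hc, integral_pow]
  simp

theorem POL_main (m : ℕ) (h : Ed m → ℝ) (hc : Continuous h) (hp : ∀ t, t ≠ 0 → 0 < h t)
    (hh : ∀ (s : ℝ) (t : Ed m), 0 ≤ s → h (s • t) = s * h t) :
    ∫⁻ t in closedBall (0 : Ed m) 1, ENNReal.ofReal (‖t‖ * (‖t‖ / h t) ^ (m + 1)) =
      ENNReal.ofReal (((m : ℝ) + 1) / (m + 2)) * volume {t : Ed m | h t ≤ 1} := by
  have hmf : Measurable (fun t : Ed m => ENNReal.ofReal (‖t‖ * (‖t‖ / h t) ^ (m + 1))) := by
    apply Measurable.ennreal_ofReal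
    exact measurable_norm.mul ((measurable_norm.div hc.measurable).pow_const _)
  have hms : MeasurableSet {t : Ed m | h t ≤ 1} := hc.measurable measurableSet_Iic
  rw [← lintegral_indicator measurableSet_closedBall, ← lintegral_indicator_one hms,
    POL_polar m _ (hmf.indicator measurableSet_closedBall),
    POL_polar m _ (measurable_one.indicator hms), ← lintegral_const_mul']
  rotate_left
  · exact ENNReal.ofReal_ne_top
  refine lintegral_congr fun θ => ?_
  have hθ : ‖(θ : Ed m)‖ = 1 := by simp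
  have hθ0 : (θ : Ed m) ≠ 0 := by
    intro h0; rw [h0, norm_zero] at hθ; exact zero_ne_one hθ
  have hpθ := hp _ hθ0
  set c := h (θ : Ed m) with hcdef
  have e1 : ∀ r ∈ Ioi (0:ℝ), ENNReal.ofReal (r ^ m) * (closedBall (0 : Ed m) 1).indicator
      (fun t : Ed m => ENNReal.ofReal (‖t‖ * (‖t‖ / h t) ^ (m + 1))) (r • (θ : Ed m)) =
      (Ioc (0:ℝ) 1).indicator (fun r => ENNReal.ofReal ((1 / c) ^ (m + 1)) *
        ENNReal.ofReal (r ^ (m + 1))) r := by
    intro r hr
    have hr' : (0:ℝ) < r := hr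
    have hn : ‖r • (θ : Ed m)‖ = r := by
      rw [norm_smul, hθ, mul_one, Real.norm_of_nonneg hr'.le]
    by_cases h1 : r ≤ 1
    · rw [indicator_of_mem (by rw [mem_closedBall_zero_iff, hn]; exact h1),
        indicator_of_mem (show r ∈ Ioc (0:ℝ) 1 from ⟨hr', h1⟩), hn, hh r _ hr'.le, ← hcdef,
        ← ENNReal.ofReal_mul (by positivity), ← ENNReal.ofReal_mul (by positivity)]
      congr 1
      field_simp
      ring
    · rw [indicator_of_notMem (by rw [mem_closedBall_zero_iff, hn]; exact h1),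
        indicator_of_notMem (fun h2 => h1 h2.2), mul_zero]
  have e2 : ∀ r ∈ Ioi (0:ℝ), ENNReal.ofReal (r ^ m) * ({t : Ed m | h t ≤ 1}).indicator
      (1 : Ed m → ℝ≥0∞) (r • (θ : Ed m)) =
      (Ioc (0:ℝ) (1 / c)).indicator (fun r => ENNReal.ofReal (r ^ m)) r := by
    intro r hr
    have hr' : (0:ℝ) < r := hr
    by_cases h1 : r ≤ 1 / c
    · rw [indicator_of_mem (by
          show h (r • (θ : Ed m)) ≤ 1
          rw [hh r _ hr'.le]
          exact (le_div_iff₀ hpθ).1 h1),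
        indicator_of_mem (show r ∈ Ioc (0:ℝ) (1 / c) from ⟨hr', h1⟩), Pi.one_apply, mul_one]
    · rw [indicator_of_notMem (by
          show ¬ (h (r • (θ : Ed m)) ≤ 1)
          rw [hh r _ hr'.le]
          exact fun h2 => h1 ((le_div_iff₀ hpθ).2 h2)),
        indicator_of_notMem (fun h2 => h1 h2.2), mul_zero]
  rw [setLIntegral_congr_fun measurableSet_Ioi e1, setLIntegral_congr_fun measurableSet_Ioi e2,
    lintegral_indicator measurableSet_Ioc, lintegral_indicator measurableSet_Ioc,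
    Measure.restrict_restrict measurableSet_Ioc, Measure.restrict_restrict measurableSet_Ioc,
    inter_eq_left.2 (fun x hx => hx.1), inter_eq_left.2 (fun x hx => hx.1),
    lintegral_const_mul' _ _ ENNReal.ofReal_ne_top, POL_pow (m + 1) zero_le_one,
    POL_pow m (by positivity), ← ENNReal.ofReal_mul (by positivity),
    ← ENNReal.ofReal_mul (by positivity)]
  congr 1
  push_cast
  have : ((m : ℝ) + 1 + 1) = m + 2 := by ring
  rw [this, one_pow]
  field_simp

theorem POL_lower (m : ℕ) (h : Ed m → ℝ) (hc : Continuous h) (hp : ∀ t, t ≠ 0 → 0 < h t)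
    (hh : ∀ (s : ℝ) (t : Ed m), 0 ≤ s → h (s • t) = s * h t) :
    ∃ c : ℝ, 0 < c ∧ ∀ t, c * ‖t‖ ≤ h t := by
  have hcomp : IsCompact (sphere (0 : Ed m) 1) := isCompact_sphere _ _
  obtain ⟨θ, hθ, hmin⟩ := hcomp.exists_isMinOn (NormedSpace.sphere_nonempty.2 zero_le_one)
    hc.continuousOn
  have hθ1 : ‖θ‖ = 1 := by simpa using hθ
  refine ⟨h θ, hp θ (by intro h0; rw [h0, norm_zero] at hθ1; exact zero_ne_one hθ1), ?_⟩
  intro t
  by_cases ht : t = 0
  · subst ht
    have := hh 0 0 le_rfl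
    rw [smul_zero, zero_mul] at this
    rw [norm_zero, mul_zero, this]
  have htn : 0 < ‖t‖ := norm_pos_iff.2 ht
  have h1 : ‖t‖⁻¹ • t ∈ sphere (0 : Ed m) 1 := by
    rw [mem_sphere_zero_iff_norm, norm_smul, norm_inv, norm_norm, inv_mul_cancel₀ htn.ne']
  have h2 : h θ ≤ h (‖t‖⁻¹ • t) := hmin h1
  rw [hh _ _ (by positivity)] at h2
  calc h θ * ‖t‖ ≤ (‖t‖⁻¹ * h t) * ‖t‖ := mul_le_mul_of_nonneg_right h2 htn.le
    _ = h t := by field_simp

theorem POL_int (m : ℕ) (h : Ed m → ℝ) (hc : Continuous h) (hp : ∀ t, t ≠ 0 → 0 < h t)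
    (hh : ∀ (s : ℝ) (t : Ed m), 0 ≤ s → h (s • t) = s * h t) :
    IntegrableOn (fun t : Ed m => ‖t‖ * (‖t‖ / h t) ^ (m + 1)) (closedBall 0 1) ∧
    ∫ t in closedBall (0 : Ed m) 1, ‖t‖ * (‖t‖ / h t) ^ (m + 1) =
      ((m : ℝ) + 1) / (m + 2) * (volume {t : Ed m | h t ≤ 1}).toReal := by
  obtain ⟨c, hc0, hcl⟩ := POL_lower m h hc hp hh
  have hm : Measurable (fun t : Ed m => ‖t‖ * (‖t‖ / h t) ^ (m + 1)) :=
    measurable_norm.mul ((measurable_norm.div hc.measurable).pow_const _)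
  have hh0 : ∀ t, 0 ≤ h t := fun t => (mul_nonneg hc0.le (norm_nonneg t)).trans (hcl t)
  have hnn : ∀ t : Ed m, 0 ≤ ‖t‖ * (‖t‖ / h t) ^ (m + 1) := fun t =>
    mul_nonneg (norm_nonneg _) (pow_nonneg (div_nonneg (norm_nonneg _) (hh0 t)) _)
  constructor
  · refine IntegrableOn.of_bound measure_closedBall_lt_top hm.aestronglyMeasurable
      ((1 / c) ^ (m + 1)) ?_
    refine (ae_restrict_iff' measurableSet_closedBall).2 (ae_of_all _ fun t ht => ?_)
    rw [Real.norm_of_nonneg (hnn t)]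
    have h1 : ‖t‖ ≤ 1 := by simpa using ht
    have h2 : ‖t‖ / h t ≤ 1 / c := by
      by_cases h0 : t = 0
      · rw [h0, norm_zero, zero_div]; positivity
      · rw [div_le_div_iff₀ (hp t h0) hc0]
        linarith [hcl t]
    calc ‖t‖ * (‖t‖ / h t) ^ (m + 1) ≤ 1 * (1 / c) ^ (m + 1) := by
          apply mul_le_mul h1 _ (pow_nonneg (div_nonneg (norm_nonneg _) (hh0 t)) _) zero_le_one
          exact pow_le_pow_left₀ (div_nonneg (norm_nonneg _) (hh0 t)) h2 _
      _ = _ := one_mul _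
  · rw [integral_eq_lintegral_of_nonneg_ae (ae_of_all _ hnn) hm.aestronglyMeasurable,
      POL_main m h hc hp hh, ENNReal.toReal_mul, ENNReal.toReal_ofReal (by positivity)]

theorem t_POL (h : S_HDF) : S_POL := by
  intro m K hK
  obtain ⟨hc, hp, hh, -, -, hPd⟩ := h m K hK
  have h1 := POL_int m (hd K) hc hp hh
  have e1 : {t : Ed m | hd K t ≤ 1} = Pd K := by
    ext t
    exact (hPd t).symm
  rw [e1] at h1
  refine ⟨h1.1, h1.2, ?_⟩
  have h2 := (POL_int m (fun t : Ed m => ‖t‖) continuous_norm (fun t ht => norm_pos_iff.2 ht)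
    (fun s t hs => by rw [norm_smul, Real.norm_of_nonneg hs])).2
  have e2 : {t : Ed m | ‖t‖ ≤ 1} = closedBall 0 1 := by
    ext t
    simp
  rw [e2] at h2
  have e3 : ∀ t : Ed m, ‖t‖ * (‖t‖ / ‖t‖) ^ (m + 1) = ‖t‖ := by
    intro t
    by_cases ht : ‖t‖ = 0
    · rw [ht, zero_mul]
    · rw [div_self ht, one_pow, mul_one]
  simp only [e3] at h2
  rw [h2]
  rfl

end H829RQ
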