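import Pool.Agent.H829R2.RQ.Defs

set_option autoImplicit false
open MeasureTheory Set Module Filter Topology Metric TopologicalSpace
open scoped ENNReal RealInnerProductSpace
open Pool.Agent.Helper481.RH
open Pool.Agent.Results.MP_036dc9_gt.ReflectionHull

namespace H829RQ

theorem prf_seg_zero {m : ℕ} (K : Set (Ed m)) : seg K (0 : Ed m) = K := by
  apply Subset.antisymm
  · rintro _ ⟨x, hx, s, -, -, rfl⟩
    simpa using hx
  · exact subset_seg K 0

theorem prf_seg {m : ℕ} {K : Set (Ed m)} (hK : IsCompact K) (hKc : Convex ℝ K) (t : Ed m) :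
    ∃ c : ℝ, 0 ≤ c ∧ ∀ s : ℝ, 0 ≤ s →
      volume (seg K (s • t)) = volume K + ENNReal.ofReal (s * c) := by
  by_cases h0 : t = 0
  · refine ⟨0, le_rfl, fun s _ => ?_⟩
    rw [h0, smul_zero, prf_seg_zero]
    simp
  · have hpos : 0 < ‖t‖ := norm_pos_iff.2 h0
    obtain ⟨b, hb⟩ := exists_basis (m := m) (v := (‖t‖)⁻¹ • t)
      (by rw [norm_smul, norm_inv, norm_norm, inv_mul_cancel₀ hpos.ne'])
    have het : t = ‖t‖ • b 0 := by
      rw [hb, smul_smul, mul_inv_cancel₀ hpos.ne', one_smul]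
    have hAc : IsCompact (coord b '' K) := hK.image (coord b).continuous
    have hAconv : Convex ℝ (coord b '' K) :=
      hKc.linear_image (coord b).toLinearEquiv.toLinearMap
    have hfin : volume (proj (coord b '' K)) ≠ ∞ := (proj_compact hAc).measure_lt_top.ne
    refine ⟨‖t‖ * (volume (proj (coord b '' K))).toReal, by positivity, fun s hs => ?_⟩
    have hct : coord b (s • t) = (s * ‖t‖, 0) := by
      rw [het, map_smul, map_smul, coord_basis, norm_smul, norm_norm, b.norm_eq_one]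
      simp
    rw [← volume_coord_image b, coord_image_seg, hct,
      volume_seg hAc hAconv (mul_nonneg hs hpos.le), volume_coord_image b, ← mul_assoc,
      ENNReal.ofReal_mul (mul_nonneg hs hpos.le), ENNReal.ofReal_toReal hfin]

theorem prf_closed {m : ℕ} {K : Set (Ed m)} (hK : IsCompact K) :
    IsClosed {p : Ed m × Ed m | p.2 ∈ seg K p.1} := by
  have hc : IsCompact (K ×ˢ Icc (0:ℝ) 1) := hK.prod isCompact_Icc
  have : CompactSpace (K ×ˢ Icc (0:ℝ) 1 : Set (Ed m × ℝ)) := isCompact_iff_compactSpace.1 hc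
  have h1 : IsClosed {q : (Ed m × Ed m) × (K ×ˢ Icc (0:ℝ) 1 : Set (Ed m × ℝ)) |
      (q.2 : Ed m × ℝ).1 + (q.2 : Ed m × ℝ).2 • q.1.1 = q.1.2} :=
    isClosed_eq (by fun_prop) (by fun_prop)
  have h2 := isClosedMap_fst_of_compactSpace _ h1
  convert h2 using 1
  ext p
  constructor
  · rintro ⟨x, hx, s, h0, h1, h⟩
    exact ⟨(p, ⟨(x, s), hx, h0, h1⟩), h, rfl⟩
  · rintro ⟨⟨p', ⟨⟨x, s⟩, hx, h0, h1⟩⟩, h, rfl⟩
    exact ⟨x, hx, s, h0, h1, h⟩

theorem t_PRF : S_PRF := by
  intro m K hK hKc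
  have hfin : ∀ t : Ed m, volume (seg K t) ≠ ∞ := fun t => (seg_compact hK t).measure_lt_top.ne
  have hval : ∀ t : Ed m, ∃ c : ℝ, 0 ≤ c ∧ ∀ s : ℝ, 0 ≤ s → pr K (s • t) = s * c := by
    intro t
    obtain ⟨c, hc0, hc⟩ := prf_seg hK hKc t
    refine ⟨c, hc0, fun s hs => ?_⟩
    rw [pr, hc s hs, ENNReal.toReal_add hK.measure_lt_top.ne ENNReal.ofReal_ne_top,
      ENNReal.toReal_ofReal (mul_nonneg hs hc0)]
    ring
  refine ⟨hfin, ?_, ?_, ?_, ?_⟩
  · exact measurable_measure_prodMk_left (prf_closed hK).measurableSet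
  · intro t
    obtain ⟨c, hc0, hc⟩ := hval t
    have := hc 1 zero_le_one
    rw [one_smul, one_mul] at this
    rw [this]
    exact hc0
  · intro s t hs
    obtain ⟨c, hc0, hc⟩ := hval t
    have := hc 1 zero_le_one
    rw [one_smul, one_mul] at this
    rw [this, hc s hs]
  · obtain ⟨R, hR⟩ := hK.isBounded.subset_closedBall (0 : Ed m)
    refine ⟨(volume (closedBall (0 : Ed m) (R + 1))).toReal, fun t ht => ?_⟩
    have h1 : seg K t ⊆ closedBall (0 : Ed m) (R + 1) := by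
      rintro _ ⟨x, hx, s, h0, h1, rfl⟩
      have h2 := hR hx
      rw [mem_closedBall_zero_iff] at h2 ⊢
      calc ‖x + s • t‖ ≤ ‖x‖ + ‖s • t‖ := norm_add_le _ _
        _ = ‖x‖ + s * ‖t‖ := by rw [norm_smul, Real.norm_of_nonneg h0]
        _ ≤ R + 1 := by nlinarith [norm_nonneg t]
    have h2 : (volume (seg K t)).toReal ≤ (volume (closedBall (0 : Ed m) (R + 1))).toReal :=
      ENNReal.toReal_mono (isCompact_closedBall _ _).measure_lt_top.ne (measure_mono h1)
    have h3 : 0 ≤ (volume K).toReal := ENNReal.toReal_nonneg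
    rw [pr]
    linarith

end H829RQ
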