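import Pool.Agent.H829R2.RQ.Defs

/-!
# Rigidity (task RIG, helper175)

A compact convex set of diameter at most `2 r` whose Steiner symmetral is a ball of radius `r` is
itself a ball of radius `r`.
-/

set_option autoImplicit false
open MeasureTheory Set Module Filter Topology Metric TopologicalSpace
open scoped ENNReal RealInnerProductSpace
open Pool.Agent.Helper481.RH
open Pool.Agent.Results.MP_036dc9_gt.ReflectionHull

namespace H829RQ

/-- points of the symmetral come from two points of `K` -/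
lemma RIG_mem {m : ℕ} (b : OrthonormalBasis (Fin (m + 1)) ℝ (Ed m)) {K : Set (Ed m)} {x : Ed m}
    (hx : x ∈ SS b K) : ∃ μ : ℝ, x + μ • b 0 ∈ K ∧ x + (μ - 2 * ⟪b 0, x⟫) • b 0 ∈ K := by
  obtain ⟨z, ⟨a, a', ⟨p, hp, hpz⟩, ⟨q, hq, hqz⟩, hz⟩, rfl⟩ := hx
  have h1 : ⟪b 0, (coord b).symm z⟫ = (a - a') / 2 := by
    rw [← coord_fst, ContinuousLinearEquiv.apply_symm_apply, hz]
  refine ⟨(a + a') / 2, ?_, ?_⟩
  · have h2 : (coord b).symm z + ((a + a') / 2) • b 0 = p := by
      apply (coord b).injective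
      rw [map_add, map_smul, ContinuousLinearEquiv.apply_symm_apply, coord_basis, hpz]
      refine Prod.ext ?_ ?_
      · simp only [Prod.fst_add, Prod.smul_fst, smul_eq_mul, hz]; ring
      · simp
    rw [h2]; exact hp
  · have h2 : (coord b).symm z + ((a + a') / 2 - 2 * ⟪b 0, (coord b).symm z⟫) • b 0 = q := by
      apply (coord b).injective
      rw [map_add, map_smul, ContinuousLinearEquiv.apply_symm_apply, coord_basis, hqz, h1]
      refine Prod.ext ?_ ?_
      · simp only [Prod.fst_add, Prod.smul_fst, smul_eq_mul, hz]; ring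
      · simp
    rw [h2]; exact hq

/-- the symmetral is symmetric -/
lemma RIG_symm {m : ℕ} (b : OrthonormalBasis (Fin (m + 1)) ℝ (Ed m)) {K : Set (Ed m)} {x : Ed m}
    (hx : x ∈ SS b K) : x - (2 * ⟪b 0, x⟫) • b 0 ∈ SS b K := by
  obtain ⟨z, ⟨a, a', hp, hq, hz⟩, rfl⟩ := hx
  have h1 : ⟪b 0, (coord b).symm z⟫ = (a - a') / 2 := by
    rw [← coord_fst, ContinuousLinearEquiv.apply_symm_apply, hz]
  refine ⟨((a' - a) / 2, z.2), ⟨a', a, hq, hp, rfl⟩, ?_⟩
  apply (coord b).injective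
  rw [map_sub, map_smul, ContinuousLinearEquiv.apply_symm_apply,
    ContinuousLinearEquiv.apply_symm_apply, coord_basis, h1]
  refine Prod.ext ?_ ?_
  · simp only [Prod.fst_sub, Prod.smul_fst, smul_eq_mul, hz]; ring
  · simp

/-- a function with quadratically small increments is constant -/
lemma RIG_const {g : ℝ → ℝ} {C : ℝ}
    (hg : ∀ s ∈ Icc (0 : ℝ) 1, ∀ t ∈ Icc (0 : ℝ) 1, |g s - g t| ≤ C * (s - t) ^ 2) :
    g 1 = g 0 := by
  have h1 : ∀ n : ℕ, |g 1 - g 0| ≤ C * (1 / ((n : ℝ) + 1)) := by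
    intro n
    have hn : (0 : ℝ) < n + 1 := by positivity
    have h2 : ∑ k ∈ Finset.range (n + 1), (g (((k + 1 : ℕ) : ℝ) / ((n : ℝ) + 1)) -
        g ((k : ℝ) / ((n : ℝ) + 1))) = g 1 - g 0 := by
      rw [Finset.sum_range_sub (fun k : ℕ => g ((k : ℝ) / ((n : ℝ) + 1)))]
      have h3 : ((n + 1 : ℕ) : ℝ) / ((n : ℝ) + 1) = 1 := by
        push_cast
        exact div_self hn.ne'
      have h4 : ((0 : ℕ) : ℝ) / ((n : ℝ) + 1) = 0 := by simp
      rw [h3, h4]
    rw [← h2]
    refine (Finset.abs_sum_le_sum_abs _ _).trans ?_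
    have h3 : ∀ k ∈ Finset.range (n + 1), |g (((k + 1 : ℕ) : ℝ) / ((n : ℝ) + 1)) -
        g ((k : ℝ) / ((n : ℝ) + 1))| ≤ C * (1 / ((n : ℝ) + 1)) ^ 2 := by
      intro k hk
      rw [Finset.mem_range] at hk
      have hk' : (k : ℝ) + 1 ≤ n + 1 := by exact_mod_cast hk
      refine (hg _ ⟨by positivity, ?_⟩ _ ⟨by positivity, ?_⟩).trans (le_of_eq ?_)
      · rw [div_le_one hn]; push_cast; linarith
      · rw [div_le_one hn]; linarith
      · push_cast
        congr 1
        ring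
    refine (Finset.sum_le_sum h3).trans (le_of_eq ?_)
    rw [Finset.sum_const, Finset.card_range, nsmul_eq_mul]
    push_cast
    field_simp
  have h4 : Tendsto (fun n : ℕ => C * (1 / ((n : ℝ) + 1))) atTop (𝓝 (C * 0)) :=
    (tendsto_one_div_add_atTop_nhds_zero_nat (𝕜 := ℝ)).const_mul C
  have h5 : |g 1 - g 0| ≤ C * 0 := ge_of_tendsto' h4 h1
  rw [mul_zero] at h5
  have h6 := abs_eq_zero.mp (le_antisymm h5 (abs_nonneg _))
  linarith

theorem t_RIG : S_RIG := by
  intro m b K c r hK hKc hr hd hS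
  set e : Ed m := b 0 with he
  have he1 : ‖e‖ = 1 := b.orthonormal.1 0
  have hee : ⟪e, e⟫ = 1 := by rw [real_inner_self_eq_norm_sq, he1]; norm_num
  have hns : ∀ (η : Ed m) (t : ℝ), ⟪e, η⟫ = 0 → ‖η + t • e‖ ^ 2 = ‖η‖ ^ 2 + t ^ 2 := by
    intro η t h
    rw [norm_add_sq_real, inner_smul_right, real_inner_comm, h, norm_smul, he1, Real.norm_eq_abs,
      mul_one, sq_abs]
    ring
  -- the centre
  have hc : ⟪e, c⟫ = 0 := by
    have h1 : ∀ σ : ℝ, |σ| ≤ r → |σ + 2 * ⟪e, c⟫| ≤ r := by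
      intro σ hσ
      have h2 : c + σ • e ∈ SS b K := by
        rw [hS, mem_closedBall_iff_norm, add_sub_cancel_left, norm_smul, he1, mul_one,
          Real.norm_eq_abs]
        exact hσ
      have h3 := RIG_symm b h2
      rw [hS, mem_closedBall_iff_norm, ← he] at h3
      have h4 : c + σ • e - (2 * ⟪e, c + σ • e⟫) • e - c = (-(σ + 2 * ⟪e, c⟫)) • e := by
        rw [inner_add_right, inner_smul_right, hee]
        module
      rw [h4, norm_smul, he1, mul_one, norm_neg, Real.norm_eq_abs] at h3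
      exact h3
    have h5 := h1 r (by rw [abs_of_pos hr])
    have h6 := h1 (-r) (by rw [abs_neg, abs_of_pos hr])
    rw [abs_le] at h5 h6
    exact le_antisymm (by linarith [h5.2]) (by linarith [h6.1])
  -- half lengths of the chords
  obtain ⟨s, hs⟩ : ∃ s : Ed m → ℝ, ∀ η, s η = √(r ^ 2 - ‖η‖ ^ 2) := ⟨_, fun _ => rfl⟩
  have hs0 : ∀ η, 0 ≤ s η := fun η => by rw [hs]; exact Real.sqrt_nonneg _
  have hs2 : ∀ η, ‖η‖ ≤ r → s η ^ 2 = r ^ 2 - ‖η‖ ^ 2 := by
    intro η h
    rw [hs, Real.sq_sqrt]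
    have := pow_le_pow_left₀ (norm_nonneg η) h 2
    linarith
  have hspos : ∀ η, ‖η‖ < r → 0 < s η := by
    intro η h
    rw [hs]
    apply Real.sqrt_pos.mpr
    have := pow_lt_pow_left₀ h (norm_nonneg η) two_ne_zero
    linarith
  have hex : ∀ η : Ed m, ∃ μ : ℝ, ⟪e, η⟫ = 0 → ‖η‖ ≤ r →
      c + η + (μ + s η) • e ∈ K ∧ c + η + (μ - s η) • e ∈ K := by
    intro η
    by_cases h : ⟪e, η⟫ = 0 ∧ ‖η‖ ≤ r
    · have h1 : c + η + (s η) • e ∈ SS b K := by
        rw [hS, mem_closedBall_iff_norm]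
        have h2 : c + η + s η • e - c = η + s η • e := by abel
        rw [h2]
        have h3 := hns η (s η) h.1
        rw [hs2 η h.2] at h3
        have h4 : ‖η + s η • e‖ ^ 2 ≤ r ^ 2 := by linarith
        exact le_of_sq_le_sq h4 hr.le
      obtain ⟨μ, h2, h3⟩ := RIG_mem b h1
      refine ⟨μ, fun _ _ => ⟨?_, ?_⟩⟩
      · have h4 : c + η + (μ + s η) • e = c + η + s η • e + μ • b 0 := by rw [← he]; module
        rw [h4]
        exact h2
      · have h5 : ⟪b 0, c + η + s η • e⟫ = s η := by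
          rw [← he, inner_add_right, inner_add_right, inner_smul_right, hee, hc, h.1]
          ring
        rw [h5] at h3
        have h4 : c + η + (μ - s η) • e = c + η + s η • e + (μ - 2 * s η) • b 0 := by
          rw [← he]; module
        rw [h4]
        exact h3
    · exact ⟨0, fun h1 h2 => absurd ⟨h1, h2⟩ h⟩
  choose μ hμ using hex
  have key : ∀ η ζ : Ed m, ⟪e, η⟫ = 0 → ⟪e, ζ⟫ = 0 → ‖η‖ ≤ r → ‖ζ‖ ≤ r →
      2 * (μ η - μ (-ζ)) * (s η + s ζ) ≤ (s η - s ζ) ^ 2 + ‖η - ζ‖ ^ 2 := by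
    intro η ζ h1 h2 h3 h4
    have h5 := (hμ η h1 h3).1
    have h6 := (hμ (-ζ) (by rw [inner_neg_right, h2, neg_zero]) (by rw [norm_neg]; exact h4)).2
    have hsn : s (-ζ) = s ζ := by rw [hs, hs, norm_neg]
    rw [hsn] at h6
    have h7 := hd _ h5 _ h6
    have h8 : c + η + (μ η + s η) • e - (c + -ζ + (μ (-ζ) - s ζ) • e) =
        (η + ζ) + (μ η - μ (-ζ) + (s η + s ζ)) • e := by module
    rw [h8] at h7
    have h9 := hns (η + ζ) (μ η - μ (-ζ) + (s η + s ζ)) (by rw [inner_add_right, h1, h2, add_zero])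
    have h10 := pow_le_pow_left₀ (norm_nonneg _) h7 2
    rw [h9] at h10
    have h11 := parallelogram_law_with_norm ℝ η ζ
    have h12 := hs2 η h3
    have h13 := hs2 ζ h4
    nlinarith [sq_nonneg (μ η - μ (-ζ))]
  have heven : ∀ η : Ed m, ⟪e, η⟫ = 0 → ‖η‖ < r → μ (-η) = μ η := by
    intro η h1 h2
    have h3 := key η η h1 h1 h2.le h2.le
    have h1' : ⟪e, -η⟫ = 0 := by rw [inner_neg_right, h1, neg_zero]
    have h2' : ‖-η‖ < r := by rw [norm_neg]; exact h2
    have h4 := key (-η) (-η) h1' h1' h2'.le h2'.le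
    rw [sub_self, sub_self, norm_zero, neg_neg] at h4
    rw [sub_self, sub_self, norm_zero] at h3
    have h5 := hspos η h2
    have h6 := hspos (-η) h2'
    apply le_antisymm
    · by_contra h
      push Not at h
      have := mul_pos (mul_pos two_pos (sub_pos.mpr h)) (add_pos h6 h6)
      linarith
    · by_contra h
      push Not at h
      have := mul_pos (mul_pos two_pos (sub_pos.mpr h)) (add_pos h5 h5)
      linarith
  have hconst : ∀ η : Ed m, ⟪e, η⟫ = 0 → ‖η‖ < r → μ η = μ 0 := by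
    intro η h1 h2
    have hσ := hspos η h2
    set σ := s η with hσdef
    have hC : ∀ τ ∈ Icc (0 : ℝ) 1, ∀ τ' ∈ Icc (0 : ℝ) 1,
        |μ (τ • η) - μ (τ' • η)| ≤ ((r ^ 4 / σ ^ 2 + r ^ 2) / (4 * σ)) * (τ - τ') ^ 2 := by
      intro τ hτ τ' hτ'
      have hin : ∀ t : ℝ, ⟪e, t • η⟫ = 0 := fun t => by rw [inner_smul_right, h1, mul_zero]
      have hnt : ∀ t ∈ Icc (0 : ℝ) 1, ‖t • η‖ ≤ ‖η‖ := by
        intro t ht
        rw [norm_smul, Real.norm_eq_abs, abs_of_nonneg ht.1]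
        exact mul_le_of_le_one_left (norm_nonneg _) ht.2
      have hst : ∀ t ∈ Icc (0 : ℝ) 1, σ ≤ s (t • η) := by
        intro t ht
        rw [hσdef, hs, hs]
        apply Real.sqrt_le_sqrt
        have := pow_le_pow_left₀ (norm_nonneg _) (hnt t ht) 2
        linarith
      have ha := key (τ • η) (τ' • η) (hin _) (hin _) ((hnt τ hτ).trans h2.le)
        ((hnt τ' hτ').trans h2.le)
      have hb := key (τ' • η) (τ • η) (hin _) (hin _) ((hnt τ' hτ').trans h2.le)
        ((hnt τ hτ).trans h2.le)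
      rw [heven _ (hin _) ((hnt τ' hτ').trans_lt h2)] at ha
      rw [heven _ (hin _) ((hnt τ hτ).trans_lt h2)] at hb
      have hc1 := hst τ hτ
      have hc2 := hst τ' hτ'
      have hd1 := hs2 (τ • η) ((hnt τ hτ).trans h2.le)
      have hd2 := hs2 (τ' • η) ((hnt τ' hτ').trans h2.le)
      have hnorm : ∀ t : ℝ, ‖t • η‖ ^ 2 = t ^ 2 * ‖η‖ ^ 2 := by
        intro t
        rw [norm_smul, mul_pow, Real.norm_eq_abs, sq_abs]
      rw [hnorm] at hd1 hd2
      rw [← sub_smul, hnorm] at ha hb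
      have hηr : ‖η‖ ^ 2 ≤ r ^ 2 := pow_le_pow_left₀ (norm_nonneg _) h2.le 2
      set S := s (τ • η)
      set S' := s (τ' • η)
      -- increments of s
      have he2 : (S - S') * (S + S') = (τ' - τ) * ((τ' + τ) * ‖η‖ ^ 2) := by nlinarith
      have he3 : σ ^ 2 * (S - S') ^ 2 ≤ r ^ 4 * (τ - τ') ^ 2 := by
        have hf1 : (S - S') ^ 2 * (S + S') ^ 2 = (τ - τ') ^ 2 * ((τ' + τ) * ‖η‖ ^ 2) ^ 2 := by
          rw [← mul_pow, he2]; ring
        have hf2 : (2 * σ) ^ 2 ≤ (S + S') ^ 2 := pow_le_pow_left₀ (by positivity) (by linarith) 2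
        have hf3 : ((τ' + τ) * ‖η‖ ^ 2) ^ 2 ≤ (2 * r ^ 2) ^ 2 := by
          apply pow_le_pow_left₀
          · exact mul_nonneg (add_nonneg hτ'.1 hτ.1) (sq_nonneg _)
          · exact mul_le_mul (by linarith [hτ.2, hτ'.2]) hηr (sq_nonneg _) (by norm_num)
        have hf4 : (S - S') ^ 2 * (2 * σ) ^ 2 ≤ (τ - τ') ^ 2 * (2 * r ^ 2) ^ 2 :=
          calc (S - S') ^ 2 * (2 * σ) ^ 2 ≤ (S - S') ^ 2 * (S + S') ^ 2 :=
                mul_le_mul_of_nonneg_left hf2 (sq_nonneg _)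
            _ = (τ - τ') ^ 2 * ((τ' + τ) * ‖η‖ ^ 2) ^ 2 := hf1
            _ ≤ _ := mul_le_mul_of_nonneg_left hf3 (sq_nonneg _)
        nlinarith
      have he4 : (S - S') ^ 2 ≤ r ^ 4 / σ ^ 2 * (τ - τ') ^ 2 := by
        rw [div_mul_eq_mul_div, le_div_iff₀ (by positivity)]
        linarith
      have he5 : (τ - τ') ^ 2 * ‖η‖ ^ 2 ≤ r ^ 2 * (τ - τ') ^ 2 := by
        nlinarith [mul_le_mul_of_nonneg_left hηr (sq_nonneg (τ - τ'))]
      have he6 : |μ (τ • η) - μ (τ' • η)| * (2 * (S + S')) ≤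
          (r ^ 4 / σ ^ 2 + r ^ 2) * (τ - τ') ^ 2 := by
        rcases abs_cases (μ (τ • η) - μ (τ' • η)) with ⟨h, _⟩ | ⟨h, _⟩
        · rw [h]
          nlinarith
        · rw [h]
          nlinarith
      have he7 : |μ (τ • η) - μ (τ' • η)| * (4 * σ) ≤
          (r ^ 4 / σ ^ 2 + r ^ 2) * (τ - τ') ^ 2 :=
        (mul_le_mul_of_nonneg_left (by linarith) (abs_nonneg _)).trans he6
      rw [div_mul_eq_mul_div, le_div_iff₀ (by positivity)]
      exact he7
    have h3 := RIG_const (g := fun τ => μ (τ • η)) hC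
    simpa using h3
  -- the ball
  have hball : ball (c + μ 0 • e) r ⊆ K := by
    intro x hx
    rw [mem_ball_iff_norm] at hx
    set d : Ed m := x - (c + μ 0 • e) with hddef
    set t : ℝ := ⟪e, d⟫ with ht
    set η : Ed m := d - t • e with hη
    have h1 : ⟪e, η⟫ = 0 := by
      rw [hη, inner_sub_right, inner_smul_right, hee, ← ht]; ring
    have h2 : ‖d‖ ^ 2 = ‖η‖ ^ 2 + t ^ 2 := by
      have h3 := hns η t h1
      rwa [hη, sub_add_cancel, ← hη] at h3
    have h3 : ‖d‖ ^ 2 < r ^ 2 := pow_lt_pow_left₀ hx (norm_nonneg _) two_ne_zero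
    have h4 : ‖η‖ < r := by
      apply lt_of_pow_lt_pow_left₀ 2 hr.le
      nlinarith [sq_nonneg t]
    have h5 := hspos η h4
    have h6 := hs2 η h4.le
    have h7 : |t| < s η := by
      apply abs_lt_of_sq_lt_sq _ h5.le
      linarith
    rw [abs_lt] at h7
    obtain ⟨h8, h9⟩ := hμ η h1 h4.le
    rw [hconst η h1 h4] at h8 h9
    have h10 := hKc h8 h9 (a := (s η + t) / (2 * s η)) (b := (s η - t) / (2 * s η))
      (div_nonneg (by linarith) (by linarith)) (div_nonneg (by linarith) (by linarith))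
      (by field_simp; ring)
    have h11 : ((s η + t) / (2 * s η)) • (c + η + (μ 0 + s η) • e) +
        ((s η - t) / (2 * s η)) • (c + η + (μ 0 - s η) • e) = x := by
      have h12 : (s η + t) / (2 * s η) = 1 / 2 + t / (2 * s η) := by field_simp
      have h13 : (s η - t) / (2 * s η) = 1 / 2 - t / (2 * s η) := by field_simp
      have h14 : x = c + η + (μ 0 + t) • e := by
        rw [hη, hddef]
        module
      have h15 : (2 * (t / (2 * s η)) * s η) = t := by field_simp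
      rw [h12, h13, h14]
      have h16 : (1 / 2 + t / (2 * s η)) • (c + η + (μ 0 + s η) • e) +
        (1 / 2 - t / (2 * s η)) • (c + η + (μ 0 - s η) • e) =
        c + η + (μ 0 + 2 * (t / (2 * s η)) * s η) • e := by module
      rw [h16, h15]
    rw [h11] at h10
    exact h10
  have hcb : closedBall (c + μ 0 • e) r ⊆ K := by
    rw [← closure_ball _ hr.ne']
    exact closure_minimal hball hK.isClosed
  refine ⟨c + μ 0 • e, Subset.antisymm ?_ hcb⟩
  intro x hx
  rw [mem_closedBall_iff_norm]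
  rcases eq_or_ne x (c + μ 0 • e) with h | h
  · rw [h, sub_self, norm_zero]; exact hr.le
  · set d : Ed m := x - (c + μ 0 • e) with hddef
    have hd0 : 0 < ‖d‖ := norm_pos_iff.mpr (sub_ne_zero.mpr h)
    have h1 : (c + μ 0 • e) - (r / ‖d‖) • d ∈ K := by
      apply hcb
      rw [mem_closedBall_iff_norm, sub_sub_cancel_left, norm_neg, norm_smul, norm_div, norm_norm,
        Real.norm_eq_abs, abs_of_pos hr, div_mul_cancel₀ _ hd0.ne']
    have h2 := hd _ hx _ h1
    have h3 : x - ((c + μ 0 • e) - (r / ‖d‖) • d) = (1 + r / ‖d‖) • d := by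
      rw [add_smul, one_smul, ← sub_add, ← hddef]
    rw [h3, norm_smul, Real.norm_eq_abs, abs_of_pos (by positivity)] at h2
    have h4 : (1 + r / ‖d‖) * ‖d‖ = ‖d‖ + r := by field_simp
    rw [h4] at h2
    linarith

end H829RQ
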