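import Pool.Agent.H829R2.RQ.Defs

/-! Task STA: the Steiner symmetral. -/

set_option autoImplicit false
open MeasureTheory Set Module Filter Topology Metric TopologicalSpace
open scoped ENNReal RealInnerProductSpace
open Pool.Agent.Helper481.RH
open Pool.Agent.Results.MP_036dc9_gt.ReflectionHull

namespace H829RQ

theorem STA_coord {m : ℕ} (b : OrthonormalBasis (Fin (m + 1)) ℝ (Ed m)) (K : Set (Ed m)) :
    coord b '' (SS b K) = St (coord b '' K) := by
  unfold SS
  rw [image_image]
  simp

/-- STA -/
theorem t_STA : S_STA := by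
  intro m b L hL hLc hLne
  set K : Set (ℝ × (Fin m → ℝ)) := coord b '' L with hKdef
  have hK : IsCompact K := hL.image (coord b).continuous
  have hKc : Convex ℝ K := hLc.linear_image (coord b).toLinearEquiv.toLinearMap
  have hKne : K.Nonempty := hLne.image _
  have hMdef : SS b L = (coord b).symm '' St K := rfl
  have hcM : coord b '' (SS b L) = St K := STA_coord b L
  refine ⟨?_, ?_, ?_, ?_, ?_⟩
  · rw [hMdef]
    exact (St_compact hK).image (coord b).symm.continuous
  · rw [hMdef]
    exact (St_convex hKc).linear_image (coord b).symm.toLinearEquiv.toLinearMap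
  · rw [hMdef]
    exact (St_nonempty hKne).image _
  · rw [← volume_coord_image b, hcM, volume_St hK hKc, hKdef, volume_coord_image]
  · intro R hLR
    rw [hMdef]
    rintro _ ⟨p, ⟨a, c, ha, hc, hac⟩, rfl⟩
    obtain ⟨x, hx, hxe⟩ := ha
    obtain ⟨y, hy, hye⟩ := hc
    have h1 := hLR hx
    have h2 := hLR hy
    rw [mem_closedBall_zero_iff] at h1 h2 ⊢
    have hR : 0 ≤ R := (norm_nonneg _).trans h1
    have e1 := norm_sq_coord b x
    have e2 := norm_sq_coord b y
    have e3 := norm_sq_coord b ((coord b).symm p)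
    rw [hxe] at e1
    rw [hye] at e2
    rw [(coord b).apply_symm_apply] at e3
    simp only at e1 e2
    rw [← sq_le_sq₀ (norm_nonneg _) hR, e3, hac]
    have h3 : ‖x‖ ^ 2 ≤ R ^ 2 := by gcongr
    have h4 : ‖y‖ ^ 2 ≤ R ^ 2 := by gcongr
    nlinarith [sq_nonneg (a + c)]

end H829RQ
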