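import Pool.Agent.H829R2.RQ.Defs

set_option autoImplicit false
open MeasureTheory Set Module Filter Topology Metric TopologicalSpace
open scoped ENNReal RealInnerProductSpace
open Pool.Agent.Helper481.RH
open Pool.Agent.Results.MP_036dc9_gt.ReflectionHull

namespace H829RQ

lemma STB_coord_Rf {m : ℕ} (b : OrthonormalBasis (Fin (m + 1)) ℝ (Ed m)) (t : Ed m) :
    coord b (Rf (b 0) t) = (-(coord b t).1, (coord b t).2) := by
  unfold Rf
  rw [map_sub, map_smul, coord_basis]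
  refine Prod.ext ?_ ?_
  · simp only [Prod.fst_sub, Prod.smul_fst, smul_eq_mul, mul_one]
    rw [← coord_fst]
    ring
  · simp

lemma STB_mem {m : ℕ} {b : OrthonormalBasis (Fin (m + 1)) ℝ (Ed m)} {K : Set (Ed m)} {x : Ed m} :
    x ∈ SS b K ↔ ∃ P ∈ K, ∃ P' ∈ K, (coord b P).2 = (coord b x).2 ∧
      (coord b P').2 = (coord b x).2 ∧ (coord b x).1 = ((coord b P).1 - (coord b P').1) / 2 := by
  constructor
  · rintro ⟨p, ⟨a, c, ⟨P, hP, hP'⟩, ⟨Q, hQ, hQ'⟩, h⟩, rfl⟩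
    refine ⟨P, hP, Q, hQ, ?_, ?_, ?_⟩
    · rw [hP', ContinuousLinearEquiv.apply_symm_apply]
    · rw [hQ', ContinuousLinearEquiv.apply_symm_apply]
    · rw [hP', hQ', ContinuousLinearEquiv.apply_symm_apply]
      exact h
  · rintro ⟨P, hP, Q, hQ, h1, h2, h3⟩
    refine ⟨coord b x, ⟨(coord b P).1, (coord b Q).1, ⟨P, hP, ?_⟩, ⟨Q, hQ, ?_⟩, h3⟩, ?_⟩
    · rw [← h1]
    · rw [← h2]
    · rw [ContinuousLinearEquiv.symm_apply_apply]

theorem t_STB : S_STB := by
  intro m b K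
  refine ⟨?_, ?_, ?_⟩
  · intro r hr p hp q hq
    obtain ⟨P, hP, P', hP', h1, h2, h3⟩ := STB_mem.1 hp
    obtain ⟨Q, hQ, Q', hQ', k1, k2, k3⟩ := STB_mem.1 hq
    have e1 := hr P hP Q hQ
    have e2 := hr P' hP' Q' hQ'
    have hr0 : 0 ≤ r := (norm_nonneg _).trans e1
    have n0 := norm_sq_coord b (p - q)
    have n1 := norm_sq_coord b (P - Q)
    have n2 := norm_sq_coord b (P' - Q')
    rw [map_sub] at n0 n1 n2
    simp only [Prod.fst_sub, Prod.snd_sub, h1, h2, k1, k2] at n0 n1 n2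
    rw [h3, k3] at n0
    have f1 : ‖P - Q‖ ^ 2 ≤ r ^ 2 := pow_le_pow_left₀ (norm_nonneg _) e1 2
    have f2 : ‖P' - Q'‖ ^ 2 ≤ r ^ 2 := pow_le_pow_left₀ (norm_nonneg _) e2 2
    have f3 : ‖p - q‖ ^ 2 ≤ r ^ 2 := by
      nlinarith [sq_nonneg (((coord b P).1 - (coord b Q).1) + ((coord b P').1 - (coord b Q').1))]
    exact (pow_le_pow_iff_left₀ (norm_nonneg _) hr0 two_ne_zero).1 f3
  · intro x hx
    obtain ⟨P, hP, P', hP', h1, h2, h3⟩ := STB_mem.1 hx
    refine STB_mem.2 ⟨P', hP', P, hP, ?_, ?_, ?_⟩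
    · rw [STB_coord_Rf, h2]
    · rw [STB_coord_Rf, h1]
    · rw [STB_coord_Rf]
      simp only
      rw [h3]
      ring
  · intro v hv hbv hK x hx
    obtain ⟨P, hP, P', hP', h1, h2, h3⟩ := STB_mem.1 hx
    have hc0 : (coord b v).1 = 0 := by rw [coord_fst, hbv]
    have ip : ∀ z : Ed m, ⟪v, z⟫ = ∑ j : Fin m, ⟪v, b j.succ⟫ * (coord b z).2 j := by
      intro z
      have h4 := b.sum_inner_mul_inner v z
      rw [Fin.sum_univ_succ, real_inner_comm, hbv, zero_mul, zero_add] at h4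
      rw [← h4]
      exact Finset.sum_congr rfl fun j _ => by rw [coord_snd]
    have cf : ∀ z : Ed m, (coord b (Rf v z)).1 = (coord b z).1 := by
      intro z
      unfold Rf
      rw [map_sub, map_smul]
      simp [hc0]
    have cs : ∀ z z' : Ed m, (coord b z).2 = (coord b z').2 →
        (coord b (Rf v z)).2 = (coord b (Rf v z')).2 := by
      intro z z' h
      unfold Rf
      rw [map_sub, map_smul, map_sub, map_smul]
      simp only [Prod.snd_sub, Prod.smul_snd]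
      rw [ip z, ip z', h]
    refine STB_mem.2 ⟨Rf v P, hK P hP, Rf v P', hK P' hP', cs _ _ h1, cs _ _ h2, ?_⟩
    rw [cf, cf, cf, h3]

end H829RQ
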