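import Pool.Agent.H829R2.RQ.Defs

/-! Project RQ, task STD (helper616): Steiner symmetrisation increases the volume of the polar of
the difference body. -/

set_option autoImplicit false
open MeasureTheory Set Module Filter Topology Metric TopologicalSpace
open scoped ENNReal RealInnerProductSpace
open Pool.Agent.Helper481.RH
open Pool.Agent.Results.MP_036dc9_gt.ReflectionHull

namespace H829RQ

namespace STD

variable {m : ℕ}

/-- the polar difference body in coordinates -/
def PP (L : Set (ℝ × (Fin m → ℝ))) : Set (ℝ × (Fin m → ℝ)) :=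
  {p | ∀ q ∈ L, ∀ r ∈ L, p.1 * (q.1 - r.1) + ∑ j, p.2 j * (q.2 j - r.2 j) ≤ 1}

lemma inner_coord (b : OrthonormalBasis (Fin (m + 1)) ℝ (Ed m)) (x y : Ed m) :
    ⟪x, y⟫ = (coord b x).1 * (coord b y).1 + ∑ j, (coord b x).2 j * (coord b y).2 j := by
  rw [← b.sum_inner_mul_inner x y, Fin.sum_univ_succ]
  simp only [coord_fst, coord_snd]
  congr 1
  · rw [real_inner_comm]
  · refine Finset.sum_congr rfl fun j _ => ?_
    rw [real_inner_comm]

lemma coord_Pd (b : OrthonormalBasis (Fin (m + 1)) ℝ (Ed m)) (K : Set (Ed m)) :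
    coord b '' Pd K = PP (coord b '' K) := by
  ext p
  constructor
  · rintro ⟨x, hx, rfl⟩
    rintro _ ⟨q, hq, rfl⟩ _ ⟨r, hr, rfl⟩
    have h := hx q hq r hr
    rw [inner_coord b, map_sub] at h
    simpa using h
  · intro hp
    refine ⟨(coord b).symm p, ?_, by simp⟩
    intro q hq r hr
    have h := hp (coord b q) ⟨q, hq, rfl⟩ (coord b r) ⟨r, hr, rfl⟩
    rw [inner_coord b, map_sub]
    simpa using h

lemma PP_closed (L : Set (ℝ × (Fin m → ℝ))) : IsClosed (PP L) := by
  have : PP L = ⋂ q ∈ L, ⋂ r ∈ L, {p : ℝ × (Fin m → ℝ) |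
      p.1 * (q.1 - r.1) + ∑ j, p.2 j * (q.2 j - r.2 j) ≤ 1} := by
    ext p
    simp [PP]
  rw [this]
  refine isClosed_biInter fun q _ => isClosed_biInter fun r _ => ?_
  exact isClosed_le (by fun_prop) continuous_const

lemma fib_neg (L : Set (ℝ × (Fin m → ℝ))) (s : ℝ) :
    Prod.mk (-s) ⁻¹' (PP L) = (fun x => -x) ⁻¹' (Prod.mk s ⁻¹' (PP L)) := by
  ext x
  simp only [mem_preimage]
  constructor
  · intro h q hq r hr
    have := h r hr q hq
    simp only [Pi.neg_apply] at this ⊢
    refine le_trans (le_of_eq ?_) this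
    congr 1
    · ring
    · refine Finset.sum_congr rfl fun j _ => ?_
      ring
  · intro h q hq r hr
    have := h r hr q hq
    simp only [Pi.neg_apply] at this ⊢
    refine le_trans (le_of_eq ?_) this
    congr 1
    · ring
    · refine Finset.sum_congr rfl fun j _ => ?_
      ring

lemma fib_le (L : Set (ℝ × (Fin m → ℝ))) (s : ℝ) :
    volume (Prod.mk s ⁻¹' (PP L)) ≤ volume (Prod.mk s ⁻¹' (PP (St L))) := by
  have hm : ∀ (L : Set (ℝ × (Fin m → ℝ))) (s : ℝ), MeasurableSet (Prod.mk s ⁻¹' (PP L)) :=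
    fun L s => (PP_closed L).measurableSet.preimage measurable_prodMk_left
  have h := Pool.Agent.Helper481.RHPL.bm_pi (hm L s) (hm L (-s)) (hm (St L) s) ?_
  · have h1 : volume (Prod.mk (-s) ⁻¹' (PP L)) = volume (Prod.mk s ⁻¹' (PP L)) := by
      rw [fib_neg]
      exact Measure.measure_preimage_neg _ _
    rw [h1, ← sq] at h
    exact (ENNReal.pow_le_pow_left_iff two_ne_zero).1 h
  · intro x hx z hz
    rintro ⟨q1, y⟩ ⟨a, c, ha, hc, hq⟩ ⟨r1, y'⟩ ⟨a', c', ha', hc', hr⟩
    have h1 := hx _ ha _ ha'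
    have h2 := hz _ hc _ hc'
    simp only at hq hr h1 h2 ⊢
    have h3 : ∑ j, (x j + z j) / 2 * (y j - y' j) =
        (∑ j, x j * (y j - y' j)) / 2 + (∑ j, z j * (y j - y' j)) / 2 := by
      rw [Finset.sum_div, Finset.sum_div, ← Finset.sum_add_distrib]
      refine Finset.sum_congr rfl fun j _ => ?_
      ring
    rw [h3, hq, hr]
    linarith

end STD

open STD in
theorem t_STD : S_STD := by
  intro m b K
  rw [← volume_coord_image b (K := Pd K), ← volume_coord_image b (K := Pd (SS b K)), coord_Pd,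
    coord_Pd]
  have h1 : coord b '' (SS b K) = St (coord b '' K) := by
    unfold SS
    rw [image_image]
    simp
  rw [h1, Measure.volume_eq_prod, Measure.prod_apply (PP_closed _).measurableSet,
    Measure.prod_apply (PP_closed _).measurableSet]
  exact lintegral_mono fun s => fib_le _ s

end H829RQ
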