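import Pool.Agent.H829R2.RQ.Defs

/-!
# STF: the averaged volume of `K + [0, t]` does not increase under Steiner symmetrisation
-/

set_option autoImplicit false
open MeasureTheory Set Module Filter Topology Metric TopologicalSpace
open scoped ENNReal RealInnerProductSpace
open Pool.Agent.Helper481.RH
open Pool.Agent.Results.MP_036dc9_gt.ReflectionHull

namespace H829RQ

/-- the reflection as a linear isometric equivalence -/
theorem STF_exists_iso {m : ℕ} (v : Ed m) (hv : ‖v‖ = 1) :
    ∃ R : Ed m ≃ₗᵢ[ℝ] Ed m, ∀ x, R x = Rf v x := by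
  refine ⟨(ℝ ∙ v)ᗮ.reflection, fun x => ?_⟩
  rw [Submodule.reflection_orthogonal_apply, Submodule.reflection_singleton_apply, hv]
  unfold Rf
  simp only [RCLike.ofReal_real_eq_id, id_eq, one_pow, div_one]
  module

theorem STF_lintegral {m : ℕ} (v : Ed m) (hv : ‖v‖ = 1) (f : Ed m → ℝ≥0∞) (hf : Measurable f) :
    ∫⁻ t in closedBall (0 : Ed m) 1, f (Rf v t) = ∫⁻ t in closedBall (0 : Ed m) 1, f t := by
  obtain ⟨R, hR⟩ := STF_exists_iso v hv
  have h1 : MeasurePreserving R volume volume := R.measurePreserving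
  have h2 : R ⁻¹' closedBall (0 : Ed m) 1 = closedBall (0 : Ed m) 1 := by
    ext x
    simp [mem_closedBall, dist_zero_right]
  have h3 := h1.setLIntegral_comp_preimage (s := closedBall (0 : Ed m) 1)
    measurableSet_closedBall hf
  rw [h2] at h3
  simpa only [hR] using h3

theorem t_STF (h1 : S_STP) (h2 : S_PRF) : S_STF := by
  intro m b K hK hc
  have hv : ‖b 0‖ = 1 := b.orthonormal.1 0
  obtain ⟨-, hmeas, -⟩ := h2 m K hK hc
  have h3 : ∫⁻ t in closedBall (0 : Ed m) 1, 2 * volume (seg (SS b K) t) ≤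
      ∫⁻ t in closedBall (0 : Ed m) 1, (volume (seg K t) + volume (seg K (Rf (b 0) t))) :=
    lintegral_mono fun t => h1 m b K hK hc t
  rw [lintegral_const_mul' _ _ (by simp), lintegral_add_left hmeas,
    STF_lintegral (b 0) hv (fun t => volume (seg K t)) hmeas, ← two_mul] at h3
  unfold FB
  exact (ENNReal.mul_le_mul_iff_right (by simp) (by simp)).mp h3

end H829RQ
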