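import Pool.Agent.H829R2.RQ.Defs

set_option autoImplicit false
open MeasureTheory Set Module Filter Topology Metric TopologicalSpace
open scoped ENNReal RealInnerProductSpace
open Pool.Agent.Helper481.RH
open Pool.Agent.Results.MP_036dc9_gt.ReflectionHull

namespace H829RQ

lemma STP_coord_Rf {m : ℕ} (b : OrthonormalBasis (Fin (m + 1)) ℝ (Ed m)) (t : Ed m) :
    coord b (Rf (b 0) t) = (-(coord b t).1, (coord b t).2) := by
  unfold Rf
  rw [map_sub, map_smul, coord_basis]
  refine Prod.ext ?_ ?_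
  · simp only [Prod.fst_sub, Prod.smul_fst, smul_eq_mul, mul_one]
    rw [← coord_fst]
    ring
  · simp

/-- the inequality in coordinates -/
lemma STP_core {m : ℕ} {K : Set (ℝ × (Fin m → ℝ))} (hK : IsCompact K) (hKc : Convex ℝ K)
    (μ : ℝ) (τ : Fin m → ℝ) :
    2 * volume (seg (St K) (μ, τ)) ≤ volume (seg K (μ, τ)) + volume (seg K (-μ, τ)) := by
  have hS := St_compact hK
  have hSc := St_convex hKc
  rw [volume_eq_lintegral_fib (seg_compact hS _).measurableSet,
    volume_eq_lintegral_fib (seg_compact hK _).measurableSet,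
    volume_eq_lintegral_fib (seg_compact hK _).measurableSet,
    ← lintegral_const_mul _ (measurable_fib (seg_compact hS _).measurableSet),
    ← lintegral_add_left (measurable_fib (seg_compact hK _).measurableSet)]
  refine lintegral_mono fun z => ?_
  rcases (fib (seg (St K) (μ, τ)) z).eq_empty_or_nonempty with he | hne
  · simp only [he, measure_empty, mul_zero]; exact zero_le
  obtain ⟨α, β, hαβ, hα, hβ, hI⟩ := fib_eq_Icc (seg_compact hS (μ, τ)) (seg_convex hSc (μ, τ)) hne
  obtain ⟨⟨c1, y1⟩, ⟨p1, q1, hp1, hq1, hc1⟩, s1, hs10, hs11, e1⟩ := hβ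
  obtain ⟨⟨c2, y2⟩, ⟨p2, q2, hp2, hq2, hc2⟩, s2, hs20, hs21, e2⟩ := hα
  simp only at hc1 hc2 hp1 hq1 hp2 hq2
  have e1a : c1 + s1 * μ = β := congrArg Prod.fst e1
  have e1b : y1 + s1 • τ = z := congrArg Prod.snd e1
  have e2a : c2 + s2 * μ = α := congrArg Prod.fst e2
  have e2b : y2 + s2 • τ = z := congrArg Prod.snd e2
  have m1 : (p1 + s1 * μ, z) ∈ seg K (μ, τ) :=
    ⟨(p1, y1), hp1, s1, hs10, hs11, by rw [← e1b]; rfl⟩
  have m2 : (p2 + s2 * μ, z) ∈ seg K (μ, τ) :=
    ⟨(p2, y2), hp2, s2, hs20, hs21, by rw [← e2b]; rfl⟩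
  have m3 : (q1 + s1 * (-μ), z) ∈ seg K (-μ, τ) :=
    ⟨(q1, y1), hq1, s1, hs10, hs11, by rw [← e1b]; rfl⟩
  have m4 : (q2 + s2 * (-μ), z) ∈ seg K (-μ, τ) :=
    ⟨(q2, y2), hq2, s2, hs20, hs21, by rw [← e2b]; rfl⟩
  have v1 := le_volume_fib (seg_convex hKc (μ, τ)) m2 m1
  have v2 := le_volume_fib (seg_convex hKc (-μ, τ)) m3 m4
  refine le_trans ?_ (add_le_add v1 v2)
  refine le_trans ?_ ENNReal.ofReal_add_le
  simp only [hI]
  rw [Real.volume_Icc, show (2 : ℝ≥0∞) = ENNReal.ofReal 2 by simp,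
    ← ENNReal.ofReal_mul (by norm_num)]
  refine ENNReal.ofReal_le_ofReal (le_of_eq ?_)
  rw [← e1a, ← e2a, hc1, hc2]
  ring

theorem t_STP : S_STP := by
  intro m b K hK hKc t
  have hL : IsCompact (coord b '' K) := hK.image (coord b).continuous
  have hLc : Convex ℝ (coord b '' K) := hKc.linear_image (coord b).toLinearEquiv.toLinearMap
  have h1 := STP_core hL hLc (coord b t).1 (coord b t).2
  have hSS : coord b '' SS b K = St (coord b '' K) := by
    unfold SS
    rw [← image_comp]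
    convert image_id _ using 1
    ext x
    simp
  rw [← volume_coord_image b (K := seg (SS b K) t), ← volume_coord_image b (K := seg K t),
    ← volume_coord_image b (K := seg K (Rf (b 0) t)), coord_image_seg, coord_image_seg,
    coord_image_seg, hSS, STP_coord_Rf]
  exact h1

end H829RQ
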