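import Pool.Agent.H829R2.RQ.Defs

/-!
# (SYM) a minimiser is symmetric (helper511)
-/

set_option autoImplicit false
open MeasureTheory Set Module Filter Topology Metric TopologicalSpace
open scoped ENNReal RealInnerProductSpace
open Pool.Agent.Helper481.RH
open Pool.Agent.Results.MP_036dc9_gt.ReflectionHull

namespace H829RQ

theorem t_SYM (h1 : S_STA) (h2 : S_STF) (h3 : S_STD) : S_SYM := by
  intro m R V A B L hV hL hmin v hv
  obtain ⟨b, hb⟩ := exists_basis hv
  obtain ⟨hLR, hLc, hLV, hLA, hLB⟩ := hL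
  obtain ⟨s1, s2, s3, s4, s5⟩ := h1 m b (L : Set (Ed m)) L.isCompact hLc L.nonempty
  set K : Set (ℝ × (Fin m → ℝ)) := coord b '' (L : Set (Ed m)) with hKdef
  have hK : IsCompact K := L.isCompact.image (coord b).continuous
  have hKc : Convex ℝ K := hLc.linear_image (coord b).toLinearEquiv.toLinearMap
  -- the symmetrised body
  let M : NonemptyCompacts (Ed m) := ⟨⟨SS b (L : Set (Ed m)), s1⟩, s3⟩
  have hMdef : (M : Set (Ed m)) = SS b (L : Set (Ed m)) := rfl
  have hcM : coord b '' (M : Set (Ed m)) = St K := by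
    rw [hMdef, SS, image_image]
    simp [hKdef]
  have hM : M ∈ C2 m R V A B := by
    refine ⟨?_, ?_, ?_, ?_, ?_⟩
    · rw [hMdef]
      exact s5 R hLR
    · rw [hMdef]
      exact s2
    · rw [hMdef, s4]
      exact hLV
    · rw [hMdef]
      exact (h2 m b (L : Set (Ed m)) L.isCompact hLc).trans hLA
    · rw [hMdef]
      exact hLB.trans (h3 m b (L : Set (Ed m)))
  have h1 := hmin M hM
  have hmomL : mom (L : Set (Ed m)) = ∫⁻ p in K, wt p := by
    rw [hKdef, lintegral_coord_image]
    simp only [wt_coord]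
    rfl
  have hmomM : mom (M : Set (Ed m)) = ∫⁻ p in St K, wt p := by
    rw [← hcM, lintegral_coord_image]
    simp only [wt_coord]
    rfl
  rw [hmomL, hmomM] at h1
  have hint : (interior K).Nonempty := by
    apply interior_coord_nonempty
    apply interior_nonempty_of_volume hLc
    intro h0
    rw [h0] at hLV
    exact hV (le_antisymm hLV zero_le)
  have hfin : ∫⁻ p in K, wt p ≠ ∞ := by
    have hcont : Continuous (fun p : ℝ × (Fin m → ℝ) => p.1 ^ 2 + ∑ i, p.2 i ^ 2) := by fun_prop
    have h3 : IntegrableOn (fun p : ℝ × (Fin m → ℝ) => p.1 ^ 2 + ∑ i, p.2 i ^ 2) K volume :=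
      hcont.continuousOn.integrableOn_compact hK
    have h4 := h3.lintegral_lt_top
    exact h4.ne
  have hsym := moment_eq hK hKc hint hfin h1
  intro x hx
  obtain ⟨y, hy, hye⟩ := hsym (coord b x) ⟨x, hx, rfl⟩
  have : y = Rf v x := by
    apply (coord b).injective
    rw [hye, Rf, map_sub, map_smul, ← hb, coord_basis, ← coord_fst]
    refine Prod.ext ?_ ?_
    · simp; ring
    · simp
  rw [← this]; exact hy

end H829RQ
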