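import Pool.Agent.H829R2.RQ.Defs

/-!
# Task WCO: constant width
-/

set_option autoImplicit false
open MeasureTheory Set Module Filter Topology Metric TopologicalSpace
open scoped ENNReal RealInnerProductSpace
open Pool.Agent.Helper481.RH
open Pool.Agent.Results.MP_036dc9_gt.ReflectionHull

namespace H829RQ

theorem WCO_bern (m : ℕ) (y : ℝ) (hy : 0 ≤ y) :
    (m : ℝ) * (y - 1) ^ 2 ≤ y ^ (m + 1) - (m + 1) * y + m := by
  have h := one_add_mul_le_pow (a := y - 1) (by linarith) m
  have h2 : 1 + (y - 1) = y := by ring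
  rw [h2] at h
  have h3 : 0 ≤ y * (y ^ m - m * y + (m - 1)) := mul_nonneg hy (by linarith)
  have h4 : y ^ (m + 1) - (m + 1) * y + m = y * (y ^ m - m * y + (m - 1)) + m * (y - 1) ^ 2 := by
    ring
  linarith

theorem t_WCO (h1 : S_HDF) (h2 : S_PRF) (h3 : S_FIN) (h4 : S_BAL) (h5 : S_POL) : S_WCO := by
  intro m K hm hK hyp r hr hvol
  obtain ⟨hhc, hhpos, hhhom, -, -, -⟩ := h1 m K hK
  obtain ⟨hsf, hsm, hp0, hphom, C, hC⟩ := h2 m K hK.1 hK.2.1
  obtain ⟨ρ, hρ, hρ1, hρ2, hρ3⟩ := h3 m K hK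
  obtain ⟨hb1, hb2⟩ := h4 m ρ hρ
  obtain ⟨hi1, hi2, hi3⟩ := h5 m K hK
  have hκ0 : 0 < kappa (m + 1) := kappa_pos _
  have hk0 : 0 < kappa m := kappa_pos _
  have hkapt : (kap (m + 1)).toReal = kappa (m + 1) := rfl
  have hBv : (volume : Measure (Ed m)).real (closedBall (0 : Ed m) 1) = kappa (m + 1) := rfl
  have hBf : (volume : Measure (Ed m)) (closedBall (0 : Ed m) 1) ≠ ∞ :=
    (isCompact_closedBall _ _).measure_lt_top.ne
  set κ := kappa (m + 1) with hκ
  set k := kappa m with hk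
  have hkt : kap (m + 1) ≠ ∞ := (isCompact_closedBall _ _).measure_lt_top.ne
  have hV : (volume K).toReal = r ^ (m + 1) * κ := by
    rw [hvol, volume_closedBall_eq (m + 1) hr.le, ENNReal.toReal_mul,
      ENNReal.toReal_ofReal (by positivity), hkapt]
  have hrρ : r ≤ ρ := by
    rw [hvol, volume_closedBall_eq (m + 1) hr.le, volume_closedBall_eq (m + 1) hρ.le] at hρ1
    have h7 := ENNReal.toReal_mono (ENNReal.mul_ne_top ENNReal.ofReal_ne_top hkt) hρ1
    rw [ENNReal.toReal_mul, ENNReal.toReal_mul, ENNReal.toReal_ofReal (by positivity),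
      ENNReal.toReal_ofReal (by positivity), hkapt] at h7
    have h8 : r ^ (m + 1) ≤ ρ ^ (m + 1) := le_of_mul_le_mul_right h7 hκ0
    exact (pow_le_pow_iff_left₀ hr.le hρ.le (Nat.succ_ne_zero m)).1 h8
  have hPd : (volume (Pd K)).toReal ≤ κ / (2 * r) ^ (m + 1) := by
    rw [hb2] at hρ3
    have h7 := ENNReal.toReal_mono ENNReal.ofReal_ne_top hρ3
    rw [ENNReal.toReal_ofReal (by positivity)] at h7
    refine h7.trans ?_
    gcongr
  set μ : Measure (Ed m) := (volume : Measure (Ed m)).restrict (closedBall (0 : Ed m) 1) with hμ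
  -- integrability
  have hnI : Integrable (fun t : Ed m => ‖t‖) μ :=
    (continuous_norm.continuousOn).integrableOn_compact (isCompact_closedBall _ _)
  have hpI : Integrable (fun t : Ed m => pr K t) μ := by
    have hmeas : AEStronglyMeasurable (fun t : Ed m => pr K t) volume :=
      ((hsm.ennreal_toReal).sub_const _).aestronglyMeasurable
    have := Measure.integrableOn_of_bounded (μ := (volume : Measure (Ed m)))
      (s := closedBall (0 : Ed m) 1) (M := C) hBf hmeas (by
        refine (ae_restrict_iff' measurableSet_closedBall).2 (Eventually.of_forall fun t ht => ?_)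
        rw [Real.norm_eq_abs, abs_of_nonneg (hp0 t)]
        exact hC t (by simpa using ht))
    exact this
  have hcI : ∀ c : ℝ, Integrable (fun _ : Ed m => c) μ := fun c =>
    integrableOn_const hBf
  have hcint : ∀ c : ℝ, ∫ _ : Ed m, c ∂μ = κ * c := by
    intro c
    rw [hμ, setIntegral_const, smul_eq_mul, hBv]
  set I1 : ℝ := ∫ t : Ed m, ‖t‖ ∂μ with hI1
  have hI1v : I1 = ((m : ℝ) + 1) / (m + 2) * κ := hi3
  have hI10 : 0 < I1 := by rw [hI1v]; positivity
  -- comparison of the averaged volumes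
  have hFK : FB K = ENNReal.ofReal (∫ t : Ed m, ((volume K).toReal + pr K t) ∂μ) := by
    have hint : Integrable (fun t : Ed m => (volume K).toReal + pr K t) μ := (hcI _).add hpI
    rw [ofReal_integral_eq_lintegral_ofReal hint
      (Eventually.of_forall fun t => add_nonneg ENNReal.toReal_nonneg (hp0 t))]
    unfold FB
    apply lintegral_congr
    intro t
    have : (volume K).toReal + pr K t = (volume (seg K t)).toReal := by
      unfold pr
      ring
    rw [this, ENNReal.ofReal_toReal (hsf t)]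
  have hFb : FB (closedBall (0 : Ed m) ρ) =
      ENNReal.ofReal (∫ t : Ed m, (ρ ^ (m + 1) * κ + ‖t‖ * (ρ ^ m * k)) ∂μ) := by
    have hint : Integrable (fun t : Ed m => ρ ^ (m + 1) * κ + ‖t‖ * (ρ ^ m * k)) μ :=
      (hcI _).add (hnI.mul_const _)
    rw [ofReal_integral_eq_lintegral_ofReal hint
      (Eventually.of_forall fun t => by
        show (0 : ℝ) ≤ ρ ^ (m + 1) * κ + ‖t‖ * (ρ ^ m * k)
        positivity)]
    unfold FB
    apply lintegral_congr
    intro t
    rw [hb1 0 t]
  have hcmp : ∫ t : Ed m, (ρ ^ (m + 1) * κ + ‖t‖ * (ρ ^ m * k)) ∂μ ≤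
      ∫ t : Ed m, ((volume K).toReal + pr K t) ∂μ := by
    rw [hFK, hFb] at hρ2
    exact (ENNReal.ofReal_le_ofReal_iff (integral_nonneg
      fun t => add_nonneg ENNReal.toReal_nonneg (hp0 t))).1 hρ2
  rw [integral_add (hcI _) (hnI.mul_const _), integral_add (hcI _) hpI, hcint, hcint,
    integral_mul_const, ← hI1, hV] at hcmp
  have hlow : r ^ m * k * I1 ≤ ∫ t : Ed m, pr K t ∂μ := by
    have e1 : r ^ (m + 1) ≤ ρ ^ (m + 1) := pow_le_pow_left₀ hr.le hrρ _
    have e2 : r ^ m ≤ ρ ^ m := pow_le_pow_left₀ hr.le hrρ _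
    have e3 : κ * (r ^ (m + 1) * κ) ≤ κ * (ρ ^ (m + 1) * κ) := by gcongr
    have e4 : r ^ m * k * I1 ≤ I1 * (ρ ^ m * k) := by
      calc r ^ m * k * I1 = I1 * (r ^ m * k) := by ring
        _ ≤ I1 * (ρ ^ m * k) := by gcongr
    linarith
  -- pointwise bound
  set y : Ed m → ℝ := fun t => 2 * r * ‖t‖ / hd K t with hy
  have hh0 : ∀ t, 0 ≤ hd K t := by
    intro t
    rcases eq_or_ne t 0 with h | h
    · have := hhhom 0 (0 : Ed m) le_rfl
      rw [zero_smul, zero_mul] at this
      rw [h, this]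
    · exact (hhpos t h).le
  have hy0 : ∀ t, 0 ≤ y t := fun t => div_nonneg (by positivity) (hh0 t)
  have hpr : ∀ t, pr K t ≤ k * r ^ m * (‖t‖ * y t) := by
    intro t
    rcases eq_or_ne t 0 with h | h
    · have := hphom 0 (0 : Ed m) le_rfl
      rw [zero_smul, zero_mul] at this
      rw [h, this]
      simp
    · have hpos := hhpos t h
      have h6 := hyp t
      rw [hV] at h6
      have h7 : pr K t ≤ 2 * (k / κ) * (r ^ (m + 1) * κ) * ‖t‖ ^ 2 / hd K t := by
        rw [le_div_iff₀ hpos]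
        exact h6
      refine h7.trans (le_of_eq ?_)
      rw [hy]
      simp only
      field_simp
      ring
  set G : Ed m → ℝ := fun t => ‖t‖ * (y t ^ (m + 1) + m) / (m + 1) with hG
  have hyG : ∀ t, (m : ℝ) / (m + 1) * (‖t‖ * (y t - 1) ^ 2) ≤ G t - ‖t‖ * y t := by
    intro t
    have h6 := WCO_bern m (y t) (hy0 t)
    rw [hG]
    simp only
    have h7 : ‖t‖ * (y t ^ (m + 1) + m) / (m + 1) - ‖t‖ * y t =
        ‖t‖ * (y t ^ (m + 1) - (m + 1) * y t + m) / (m + 1) := by
      field_simp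
      ring
    rw [h7]
    have h8 : (m : ℝ) / (m + 1) * (‖t‖ * (y t - 1) ^ 2) =
        ‖t‖ * (m * (y t - 1) ^ 2) / (m + 1) := by
      field_simp
    rw [h8]
    gcongr
  have hGeq : ∀ t, G t = (2 * r) ^ (m + 1) / (m + 1) * (‖t‖ * (‖t‖ / hd K t) ^ (m + 1)) +
      m / (m + 1) * ‖t‖ := by
    intro t
    rw [hG, hy]
    simp only
    have : 2 * r * ‖t‖ / hd K t = (2 * r) * (‖t‖ / hd K t) := by ring
    rw [this, mul_pow]
    field_simp
  have hGI : Integrable G μ := by
    have : G = fun t => (2 * r) ^ (m + 1) / (m + 1) * (‖t‖ * (‖t‖ / hd K t) ^ (m + 1)) +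
      m / (m + 1) * ‖t‖ := funext hGeq
    rw [this]
    exact (hi1.const_mul _).add (hnI.const_mul _)
  have hGint : ∫ t, G t ∂μ ≤ I1 := by
    have e1 : ∫ t, G t ∂μ = (2 * r) ^ (m + 1) / (m + 1) *
        (((m : ℝ) + 1) / (m + 2) * (volume (Pd K)).toReal) + m / (m + 1) * I1 := by
      rw [integral_congr_ae (Eventually.of_forall hGeq),
        integral_add (hi1.const_mul _) (hnI.const_mul _), integral_const_mul, integral_const_mul,
        hi2]
    rw [e1]
    have e2 : (2 * r) ^ (m + 1) / (m + 1) * (((m : ℝ) + 1) / (m + 2) * (volume (Pd K)).toReal) ≤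
        (2 * r) ^ (m + 1) / (m + 1) * (((m : ℝ) + 1) / (m + 2) * (κ / (2 * r) ^ (m + 1))) := by
      gcongr
    have e3 : (2 * r) ^ (m + 1) / (m + 1) * (((m : ℝ) + 1) / (m + 2) * (κ / (2 * r) ^ (m + 1))) =
        1 / (m + 1) * I1 := by
      rw [hI1v]
      field_simp
    have e4 : 1 / ((m : ℝ) + 1) * I1 + m / (m + 1) * I1 = I1 := by
      field_simp
      ring
    linarith
  -- the nonnegative function with integral zero
  set H : Ed m → ℝ := fun t => k * r ^ m * G t - pr K t with hH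
  have hkr : 0 < k * r ^ m := by positivity
  have hHlow : ∀ t, k * r ^ m * ((m : ℝ) / (m + 1) * (‖t‖ * (y t - 1) ^ 2)) ≤ H t := by
    intro t
    have h6 := mul_le_mul_of_nonneg_left (hyG t) hkr.le
    have h7 := hpr t
    rw [hH]
    simp only
    have h8 : k * r ^ m * (G t - ‖t‖ * y t) = k * r ^ m * G t - k * r ^ m * (‖t‖ * y t) := by ring
    linarith
  have hH0 : ∀ t, 0 ≤ H t := fun t => le_trans (by positivity) (hHlow t)
  have hHI : Integrable H μ := (hGI.const_mul _).sub hpI
  have hHint : ∫ t, H t ∂μ = 0 := by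
    apply le_antisymm _ (integral_nonneg hH0)
    have e1 : ∫ t, H t ∂μ = k * r ^ m * ∫ t, G t ∂μ - ∫ t, pr K t ∂μ := by
      rw [hH, integral_sub (hGI.const_mul _) hpI, integral_const_mul]
    rw [e1]
    have e2 : k * r ^ m * ∫ t, G t ∂μ ≤ k * r ^ m * I1 := by gcongr
    have e3 : k * r ^ m * I1 = r ^ m * k * I1 := by ring
    linarith
  have hae := (integral_eq_zero_iff_of_nonneg hH0 hHI).1 hHint
  have hmR : (0 : ℝ) < m := by exact_mod_cast hm
  have hae2 : (fun t => hd K t) =ᵐ[μ] fun t : Ed m => 2 * r * ‖t‖ := by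
    filter_upwards [hae] with t ht
    have h6 := hHlow t
    rw [ht] at h6
    rcases eq_or_ne t 0 with h | h
    · have := hhhom 0 (0 : Ed m) le_rfl
      rw [zero_smul, zero_mul] at this
      rw [h, this]
      simp
    · have hn : 0 < ‖t‖ := norm_pos_iff.2 h
      have hpos := hhpos t h
      have h7 : k * r ^ m * ((m : ℝ) / (m + 1) * ‖t‖) * (y t - 1) ^ 2 ≤ 0 := by
        have : k * r ^ m * ((m : ℝ) / (m + 1) * ‖t‖) * (y t - 1) ^ 2 =
          k * r ^ m * ((m : ℝ) / (m + 1) * (‖t‖ * (y t - 1) ^ 2)) := by ring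
        rw [this]
        simpa using h6
      have h8 : 0 < k * r ^ m * ((m : ℝ) / (m + 1) * ‖t‖) := by positivity
      have h9 : (y t - 1) ^ 2 ≤ 0 := by
        by_contra hcon
        push Not at hcon
        have := mul_pos h8 hcon
        linarith
      have h10 : y t - 1 = 0 := by
        have := le_antisymm h9 (sq_nonneg _)
        exact pow_eq_zero_iff (two_ne_zero) |>.1 this
      have h11 : 2 * r * ‖t‖ / hd K t = 1 := by
        have : y t = 1 := by linarith
        exact this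
      rw [div_eq_one_iff_eq hpos.ne'] at h11
      exact h11.symm
  have hball : (fun t => hd K t) =ᵐ[(volume : Measure (Ed m)).restrict (ball 0 1)]
      fun t : Ed m => 2 * r * ‖t‖ :=
    ae_restrict_of_ae_restrict_of_subset ball_subset_closedBall hae2
  have hEq : EqOn (fun t => hd K t) (fun t : Ed m => 2 * r * ‖t‖) (ball 0 1) :=
    Measure.eqOn_open_of_ae_eq hball isOpen_ball hhc.continuousOn
      (Continuous.continuousOn (by fun_prop))
  intro t
  rcases eq_or_ne t 0 with h | h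
  · have := hhhom 0 (0 : Ed m) le_rfl
    rw [zero_smul, zero_mul] at this
    rw [h, this]
    simp
  · have hn : 0 < ‖t‖ := norm_pos_iff.2 h
    set u : Ed m := (1 / (2 * ‖t‖)) • t with hu
    have hun : ‖u‖ = 1 / 2 := by
      rw [hu, norm_smul, Real.norm_eq_abs, abs_of_pos (by positivity)]
      field_simp
    have h6 := hEq (show u ∈ ball (0 : Ed m) 1 by rw [mem_ball_zero_iff, hun]; norm_num)
    simp only at h6
    rw [hun] at h6
    have h7 : t = (2 * ‖t‖) • u := by
      rw [hu, smul_smul]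
      have : 2 * ‖t‖ * (1 / (2 * ‖t‖)) = 1 := by field_simp
      rw [this, one_smul]
    have h8 := hhhom (2 * ‖t‖) u (by positivity)
    rw [← h7, h6] at h8
    rw [h8]
    ring

end H829RQ
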