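import Pool.Agent.H829R2.RQ.Defs

/-!
# Task WID: reflection hulls see the width
-/

set_option autoImplicit false
open MeasureTheory Set Module Filter Topology Metric TopologicalSpace
open scoped ENNReal RealInnerProductSpace
open Pool.Agent.Helper481.RH

namespace H829RQ

/-- reflection hulls dominate translative hulls in the direction `b 0` -/
theorem WID_gen {m : ℕ} (b : OrthonormalBasis (Fin (m + 1)) ℝ (EuclideanSpace ℝ (Fin (m + 1))))
    {K : Set (EuclideanSpace ℝ (Fin (m + 1)))} (hK : IsCompact K)
    (hKc : Convex ℝ K) {x t : EuclideanSpace ℝ (Fin (m + 1))} (hx : x ∈ K) (hxt : x + t ∈ K)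
    {i : ℕ} (hi : i ≤ m) {ℓ : ℝ} (hℓ0 : 0 ≤ ℓ)
    (hrt0 : (L0 b hi).reflection t = t - (2 * ℓ) • b 0) :
    ∃ L : AffineSubspace ℝ (EuclideanSpace ℝ (Fin (m + 1))), ∃ _ : Nonempty L,
      finrank ℝ L.direction = i ∧ ((L : Set (EuclideanSpace ℝ (Fin (m + 1)))) ∩ K).Nonempty ∧
      volume (seg K (ℓ • b 0)) ≤
        volume (convexHull ℝ (K ∪ EuclideanGeometry.reflection L '' K)) := by
  have hct : coord b (ℓ • b 0) = (ℓ, 0) := by
    rw [map_smul, coord_basis]
    simp
  set r := (L0 b hi).reflection with hr
  have hrt : r t = t - (2 * ℓ) • b 0 := hrt0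
  set A : Set (ℝ × (Fin m → ℝ)) := coord b '' K with hA
  set f1 : EuclideanSpace ℝ (Fin (m + 1)) → EuclideanSpace ℝ (Fin (m + 1)) :=
    fun z => r (z - x) + x with hf1
  set B : Set (ℝ × (Fin m → ℝ)) := coord b '' (f1 '' K) with hB
  have hAc : IsCompact A := hK.image (coord b).continuous
  have hAconv : Convex ℝ A := hKc.linear_image (coord b).toLinearEquiv.toLinearMap
  have hf1c : Continuous f1 := by
    rw [hf1]
    exact (r.continuous.comp (continuous_id.sub continuous_const)).add continuous_const
  have hKf : IsCompact (f1 '' K) := hK.image hf1c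
  have hKfc : Convex ℝ (f1 '' K) := by
    have e1 : f1 '' K = (fun z => (x - r x) + z) '' (r.toLinearEquiv.toLinearMap '' K) := by
      rw [image_image]
      congr 1
      funext z
      simp only [hf1, map_sub]
      show r z - r x + x = x - r x + r z
      abel
    rw [e1]
    exact (hKc.linear_image r.toLinearEquiv.toLinearMap).translate _
  have hBc : IsCompact B := hKf.image (coord b).continuous
  have hBconv : Convex ℝ B := hKfc.linear_image (coord b).toLinearEquiv.toLinearMap
  have hAne : A.Nonempty := ⟨_, x, hx, rfl⟩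
  have hBne : B.Nonempty := ⟨_, _, ⟨x, hx, rfl⟩, rfl⟩
  have hvf : volume (f1 '' K) = volume K := by
    have e1 : f1 '' K = (fun z => z + (x - r x)) '' (r '' K) := by
      rw [image_image]
      congr 1
      funext z
      simp only [hf1, map_sub]
      abel
    rw [e1, image_add_right, measure_preimage_add_right]
    have h2 := r.measurePreserving.measure_preimage_emb r.toHomeomorph.measurableEmbedding (r '' K)
    rw [preimage_image_eq _ r.injective] at h2
    exact h2.symm
  have hvA : volume A = volume K := volume_coord_image b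
  have hvB : volume B = volume K := by rw [hB, volume_coord_image, hvf]
  have hproj : volume (proj A) = volume (proj B) := by
    have e1 : proj B = (fun y : Fin m → ℝ => (fun j => sg hi j * y j)
        + ((coord b x).2 - fun j => sg hi j * (coord b x).2 j)) '' (proj A) := by
      rw [proj, proj, hA, hB, image_image, image_image, image_image, image_image]
      congr 1
      funext z
      simp only [hf1, map_add, map_sub]
      rw [hr, refl_coord, refl_coord]
      funext j
      simp only [Prod.snd_add, Prod.snd_sub, Pi.add_apply, Pi.sub_apply]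
      ring
    rw [e1, volume_sg_image hi (proj_compact hAc)]
  have hmain := hull_ineq hAc hBc hAconv hBconv hAne hBne hproj (τ := 2 * ℓ) (by positivity)
  have hseg : volume (seg K (ℓ • b 0)) = volume K + ENNReal.ofReal ℓ * volume (proj A) := by
    rw [← volume_coord_image b, coord_image_seg, hct, volume_seg hAc hAconv hℓ0, hvA]
  have hsum : 2 * volume (seg K (ℓ • b 0)) ≤ volume (hull A B 0) + volume (hull A B (2 * ℓ)) := by
    refine le_trans (le_of_eq ?_) hmain
    rw [hseg, hvA, hvB, ENNReal.ofReal_mul (by norm_num)]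
    simp only [ENNReal.ofReal_ofNat]
    ring
  -- the two hulls
  have himg : ∀ s : ℝ, ∀ S : Set (EuclideanSpace ℝ (Fin (m + 1))),
      coord b '' S = (fun p => p + (s, (0 : Fin m → ℝ))) '' B →
      volume (convexHull ℝ (K ∪ S)) = volume (hull A B s) := by
    intro s S hS
    rw [← volume_coord_image b]
    congr 1
    have h1 := ((coord b).toLinearEquiv.toLinearMap).image_convexHull (K ∪ S)
    have h2 : (coord b : EuclideanSpace ℝ (Fin (m + 1)) → ℝ × (Fin m → ℝ)) '' (convexHull ℝ (K ∪ S))
        = convexHull ℝ ((coord b) '' (K ∪ S)) := h1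
    rw [h2, image_union, hS]
    rfl
  rcases le_total (volume (seg K (ℓ • b 0))) (volume (hull A B 0)) with h0 | h0
  · refine ⟨AffineSubspace.mk' x (L0 b hi), ⟨⟨x, AffineSubspace.self_mem_mk' _ _⟩⟩, ?_, ?_, ?_⟩
    · rw [AffineSubspace.direction_mk', finrank_L0]
    · exact ⟨x, AffineSubspace.self_mem_mk' _ _, hx⟩
    · refine h0.trans (le_of_eq ?_)
      symm
      apply himg
      rw [image_image, hB, image_image, image_image]
      congr 1
      funext z
      rw [reflection_mk', hf1]
      show coord b (r (z - x) + x) = coord b (r (z - x) + x) + (0, 0)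
      simp
  · have h1 : volume (seg K (ℓ • b 0)) ≤ volume (hull A B (2 * ℓ)) := by
      have hfin : volume (seg K (ℓ • b 0)) ≠ ∞ := (seg_compact hK (ℓ • b 0)).measure_lt_top.ne
      by_contra hcon
      push Not at hcon
      have h2 : volume (hull A B 0) + volume (hull A B (2 * ℓ)) < volume (seg K (ℓ • b 0)) + volume (seg K (ℓ • b 0)) :=
        ENNReal.add_lt_add_of_le_of_lt (ne_top_of_le_ne_top hfin h0) h0 hcon
      rw [← two_mul] at h2
      exact absurd hsum (not_le.2 h2)
    refine ⟨AffineSubspace.mk' (x + t) (L0 b hi), ⟨⟨x + t, AffineSubspace.self_mem_mk' _ _⟩⟩,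
      ?_, ?_, ?_⟩
    · rw [AffineSubspace.direction_mk', finrank_L0]
    · exact ⟨x + t, AffineSubspace.self_mem_mk' _ _, hxt⟩
    · refine h1.trans (le_of_eq ?_)
      symm
      apply himg
      rw [image_image, hB, image_image, image_image]
      congr 1
      funext z
      rw [reflection_mk', hf1]
      show coord b (r (z - (x + t)) + (x + t)) = coord b (r (z - x) + x) + (2 * ℓ, 0)
      have e1 : r (z - (x + t)) + (x + t) = (r (z - x) + x) + (2 : ℝ) • (ℓ • b 0) := by
        rw [← sub_sub, map_sub, hrt]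
        module
      have e2 : (2 * ℓ, (0 : Fin m → ℝ)) = (2 : ℝ) • coord b (ℓ • b 0) := by
        rw [hct]; simp
      rw [e1, e2, map_add, map_smul]

/-- a basis adapted to `v` and a vector orthogonal to `v` -/
theorem WID_basis {m i : ℕ} (hi1 : 1 ≤ i) (hi : i ≤ m) (v w : EuclideanSpace ℝ (Fin (m + 1)))
    (hv : ‖v‖ = 1) (hw : ⟪v, w⟫ = 0) :
    ∃ b : OrthonormalBasis (Fin (m + 1)) ℝ (EuclideanSpace ℝ (Fin (m + 1))),
      b 0 = v ∧ w ∈ L0 b hi := by
  by_cases hw0 : w = 0
  · obtain ⟨b, hb⟩ := exists_basis hv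
    exact ⟨b, hb, by rw [hw0]; exact Submodule.zero_mem _⟩
  · have hpos : 0 < ‖w‖ := norm_pos_iff.2 hw0
    set e : EuclideanSpace ℝ (Fin (m + 1)) := (‖w‖)⁻¹ • w with he
    have he1 : ‖e‖ = 1 := by
      rw [he, norm_smul, norm_inv, norm_norm, inv_mul_cancel₀ hpos.ne']
    have hve : ⟪v, e⟫ = 0 := by
      rw [he, inner_smul_right, hw, mul_zero]
    have hev : ⟪e, v⟫ = 0 := by
      rw [real_inner_comm]
      exact hve
    set k : Fin (m + 1) := idx hi ⟨0, hi1⟩ with hk
    have hk0 : k ≠ 0 := idx_ne_zero hi _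
    have ho : Orthonormal ℝ (Set.domRestrict ({0, k} : Set (Fin (m + 1)))
        (fun j : Fin (m + 1) => if j = 0 then v else e)) := by
      constructor
      · rintro ⟨j, hj⟩
        show ‖(if j = 0 then v else e)‖ = 1
        split_ifs
        · exact hv
        · exact he1
      · rintro ⟨j, hj⟩ ⟨j', hj'⟩ hne
        have hne' : j ≠ j' := fun h => hne (Subtype.ext h)
        show ⟪(if j = 0 then v else e), (if j' = 0 then v else e)⟫ = 0
        rcases hj with hj | hj <;> rcases hj' with hj' | hj'
        · exact absurd (hj.trans hj'.symm) hne'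
        · have h1 : j' ≠ 0 := by
            rw [show j' = k from hj']
            exact hk0
          rw [if_pos hj, if_neg h1]
          exact hve
        · have h1 : j ≠ 0 := by
            rw [show j = k from hj]
            exact hk0
          rw [if_neg h1, if_pos hj']
          exact hev
        · exact absurd (hj.trans hj'.symm) hne'
    obtain ⟨b, hb⟩ := Orthonormal.exists_orthonormalBasis_extension_of_card_eq
      (𝕜 := ℝ) (E := EuclideanSpace ℝ (Fin (m + 1))) (ι := Fin (m + 1)) (by simp) ho
    have hb0 : b 0 = v := by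
      have h1 := hb 0 (Or.inl rfl)
      rw [if_pos rfl] at h1
      exact h1
    have hbk : b k = e := by
      have h1 := hb k (Or.inr rfl)
      rw [if_neg hk0] at h1
      exact h1
    refine ⟨b, hb0, ?_⟩
    have h2 : w = ‖w‖ • b k := by
      rw [hbk, he, smul_smul, mul_inv_cancel₀ hpos.ne', one_smul]
    rw [h2]
    exact Submodule.smul_mem _ _ (Submodule.subset_span ⟨⟨0, hi1⟩, rfl⟩)

theorem t_WID : S_WID := by
  intro m i hi1 hi K hK hKc x t v hx hxt hv hvt
  have hvv : ⟪v, v⟫ = (1 : ℝ) := by
    rw [real_inner_self_eq_norm_sq, hv]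
    norm_num
  have hw : ⟪v, t - ⟪v, t⟫ • v⟫ = (0 : ℝ) := by
    rw [inner_sub_right, inner_smul_right, hvv, mul_one, sub_self]
  obtain ⟨b, hb, hmem⟩ := WID_basis hi1 hi v (t - ⟪v, t⟫ • v) hv hw
  have hrt : (L0 b hi).reflection t = t - (2 * ⟪v, t⟫) • b 0 := by
    have e1 : t = ⟪v, t⟫ • b 0 + (t - ⟪v, t⟫ • v) := by
      rw [hb]
      abel
    have e2 : (L0 b hi).reflection (b 0) = - b 0 := refl_notMem b hi (by
      rintro ⟨j, hj⟩
      exact idx_ne_zero hi j hj)
    have e3 : (L0 b hi).reflection (t - ⟪v, t⟫ • v) = t - ⟪v, t⟫ • v :=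
      Submodule.reflection_mem_subspace_eq_self hmem
    conv_lhs => rw [e1]
    rw [map_add, map_smul, e2, e3, hb]
    module
  have h := WID_gen b hK hKc hx hxt hi hvt hrt
  rw [hb] at h
  exact h

end H829RQ
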